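import Pool.Agent.R666.FR.Stms

/-!
# FR-1: balanced vectors are convex combinations of window frequencies of periodic words
-/

namespace FeasR.P1

open Finset

/-- words of length `j + 1` -/
abbrev Wd (j : ℕ) := Fin (j + 1) → Bool

def Balanced {j : ℕ} (μ : Wd j → ℝ) : Prop :=
  ∀ s : Fin j → Bool, ∑ u with Fin.init (α := fun _ => Bool) u = s, μ u =
      ∑ u with Fin.tail (α := fun _ => Bool) u = s, μ u

def Golden (g : Bool) {j : ℕ} (μ : Wd j → ℝ) : Prop :=
  g = true → ∀ u : Wd j, (∃ t : Fin j, u t.castSucc = true ∧ u t.succ = true) → μ u = 0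

def SS (g : Bool) (j : ℕ) : Set (Wd j → ℝ) :=
  {ν | ∃ (L : ℕ) (p : ℕ → Bool), 0 < L ∧ (∀ t, p (t + L) = p t) ∧
      Gold g p ∧ ν = freq j L p}

lemma freq_eq (j L : ℕ) (p : ℕ → Bool) (u : Wd j) :
    freq j L p u = (∑ i ∈ range L, if win j p i = u then (1 : ℝ) else 0) / L := by
  unfold freq
  rw [Finset.card_filter]
  push_cast
  rfl

lemma sum_fib {S : Type*} [DecidableEq S] (j L : ℕ) (p : ℕ → Bool) (h : Wd j → S) (s : S) :
    ∑ u with h u = s, freq j L p u =
      (∑ i ∈ range L, if h (win j p i) = s then (1 : ℝ) else 0) / L := by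
  simp_rw [freq_eq]
  rw [← Finset.sum_div]
  congr 1
  rw [Finset.sum_comm]
  refine Finset.sum_congr rfl fun i _ => ?_
  rw [Finset.sum_filter, Finset.sum_eq_single (win j p i)]
  · simp
  · intro b _ hb
    rw [if_neg (Ne.symm hb)]
    simp
  · intro h
    exact absurd (Finset.mem_univ _) h

lemma init_win (j : ℕ) (p : ℕ → Bool) (i : ℕ) :
    Fin.init (α := fun _ => Bool) (win j p (i + 1)) = Fin.tail (α := fun _ => Bool) (win j p i) := by
  funext t
  simp only [Fin.init, Fin.tail, win, Fin.val_castSucc, Fin.val_succ]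
  congr 1
  ring

lemma win_per {j L : ℕ} {p : ℕ → Bool} (hp : ∀ t, p (t + L) = p t) (i : ℕ) :
    win j p (i + L) = win j p i := by
  funext t
  simp only [win]
  rw [show i + L + (t : ℕ) = i + t + L by ring, hp]

lemma freq_balanced {j L : ℕ} {p : ℕ → Bool} (hp : ∀ t, p (t + L) = p t) :
    Balanced (freq j L p) := by
  intro s
  rw [sum_fib j L p (fun u => Fin.init (α := fun _ => Bool) u) s,
    sum_fib j L p (fun u => Fin.tail (α := fun _ => Bool) u) s]
  congr 1
  set q : ℕ → ℝ := fun i => if Fin.init (α := fun _ => Bool) (win j p i) = s then (1 : ℝ) else 0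
    with hq
  have h1 : ∑ i ∈ range L, (if Fin.tail (α := fun _ => Bool) (win j p i) = s then (1 : ℝ) else 0) =
      ∑ i ∈ range L, q (i + 1) := by
    refine Finset.sum_congr rfl fun i _ => ?_
    simp only [hq]
    rw [init_win]
  rw [h1]
  have h2 := Finset.sum_range_succ q L
  have h3 := Finset.sum_range_succ' q L
  have h4 : q L = q 0 := by
    simp only [hq]
    have := win_per (j := j) hp 0
    rw [zero_add] at this
    rw [this]
  have h5 : ∑ i ∈ range L, q i = ∑ i ∈ range L, q (i + 1) := by linarith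
  exact h5

lemma freq_sum {j L : ℕ} {p : ℕ → Bool} (hL : 0 < L) : ∑ u, freq j L p u = 1 := by
  have h := sum_fib j L p (fun _ : Wd j => ()) ()
  simp only [Finset.filter_true, if_true, Finset.sum_const, Finset.card_range, nsmul_eq_mul,
    mul_one] at h
  have hL' : (L : ℝ) ≠ 0 := by positivity
  rw [div_self hL'] at h
  simpa using h

lemma exists_orbit {g : Bool} {j : ℕ} (hgj : g = true → 1 ≤ j) {μ : Wd j → ℝ}
    (h0 : ∀ u, 0 ≤ μ u) (hb : Balanced μ) (hg : Golden g μ) (hne : μ ≠ 0) :
    ∃ (L : ℕ) (p : ℕ → Bool), 0 < L ∧ (∀ t, p (t + L) = p t) ∧ Gold g p ∧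
      (∀ i, 0 < μ (win j p i)) ∧
      (∀ i < L, ∀ i' < L, win j p i = win j p i' → i = i') := by
  classical
  have hnext : ∀ u : {u : Wd j // 0 < μ u}, ∃ u' : {u : Wd j // 0 < μ u},
      Fin.init (α := fun _ => Bool) u'.1 = Fin.tail (α := fun _ => Bool) u.1 := by
    rintro ⟨u, hu⟩
    have h1 := hb (Fin.tail (α := fun _ => Bool) u)
    have h2 : μ u ≤ ∑ u' with Fin.tail (α := fun _ => Bool) u' = Fin.tail (α := fun _ => Bool) u,
        μ u' := by
      refine Finset.single_le_sum (f := μ) (fun i _ => h0 i) ?_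
      simp
    rw [← h1] at h2
    have h3 : 0 < ∑ u' with Fin.init (α := fun _ => Bool) u' = Fin.tail (α := fun _ => Bool) u,
        μ u' := lt_of_lt_of_le hu h2
    obtain ⟨u', hu', hpos⟩ := Finset.exists_lt_of_sum_lt (s := univ.filter
      (fun u' : Wd j => Fin.init (α := fun _ => Bool) u' = Fin.tail (α := fun _ => Bool) u))
      (f := fun _ => (0 : ℝ)) (g := μ) (by simpa using h3)
    exact ⟨⟨u', hpos⟩, (Finset.mem_filter.1 hu').2⟩
  choose f hf using hnext
  obtain ⟨u0, hu0⟩ : ∃ u, 0 < μ u := by
    by_contra hcon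
    push Not at hcon
    exact hne (funext fun u => le_antisymm (hcon u) (h0 u))
  obtain ⟨m, n, hmn, hmn'⟩ := Finite.exists_ne_map_eq_of_infinite
    (fun n : ℕ => f^[n] ⟨u0, hu0⟩)
  -- a periodic point
  obtain ⟨y, hy⟩ : ∃ y, y ∈ Function.periodicPts f := by
    rcases lt_or_gt_of_ne hmn with h | h
    · refine ⟨f^[m] ⟨u0, hu0⟩, n - m, by omega, ?_⟩
      show f^[n - m] (f^[m] ⟨u0, hu0⟩) = _
      rw [← Function.iterate_add_apply, show n - m + m = n by omega]
      exact hmn'.symm
    · refine ⟨f^[n] ⟨u0, hu0⟩, m - n, by omega, ?_⟩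
      show f^[m - n] (f^[n] ⟨u0, hu0⟩) = _
      rw [← Function.iterate_add_apply, show m - n + n = m by omega]
      exact hmn'
  set L := Function.minimalPeriod f y with hL
  have hLpos : 0 < L := Function.minimalPeriod_pos_of_mem_periodicPts hy
  have hfL : f^[L] y = y := Function.iterate_minimalPeriod
  set p : ℕ → Bool := fun t => (f^[t] y).1 0 with hp
  have hwin : ∀ (s : ℕ) (hs : s < j + 1) (t : ℕ), p (t + s) = (f^[t] y).1 ⟨s, hs⟩ := by
    intro s
    induction s with
    | zero => intro hs t; rfl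
    | succ s ih =>
      intro hs t
      have h1 := congrFun (hf (f^[t] y)) ⟨s, by omega⟩
      simp only [Fin.init, Fin.tail] at h1
      rw [show t + (s + 1) = (t + 1) + s by ring, ih (by omega) (t + 1)]
      rw [Function.iterate_succ_apply' f t y]
      exact h1
  have hw : ∀ t, win j p t = (f^[t] y).1 := by
    intro t
    funext s
    exact hwin s.1 s.2 t
  refine ⟨L, p, hLpos, ?_, ?_, ?_, ?_⟩
  · intro t
    simp only [hp]
    rw [Function.iterate_add_apply, hfL]
  · intro hgt t ht
    have hj := hgj hgt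
    have h1 : μ (win j p t) = 0 := by
      refine hg hgt _ ⟨⟨0, by omega⟩, ?_, ?_⟩
      · show p (t + 0) = true
        exact ht.1
      · show p (t + (0 + 1)) = true
        exact ht.2
    rw [hw t] at h1
    exact absurd h1 (f^[t] y).2.ne'
  · intro i
    rw [hw i]
    exact (f^[i] y).2
  · intro i hi i' hi' h
    rw [hw i, hw i'] at h
    exact Function.iterate_injOn_Iio_minimalPeriod hi hi' (Subtype.ext h)

lemma cone (g : Bool) (j : ℕ) (hgj : g = true → 1 ≤ j) : ∀ (N : ℕ) (μ : Wd j → ℝ),
    (∀ u, 0 ≤ μ u) → Balanced μ → Golden g μ → (univ.filter (fun u => μ u ≠ 0)).card ≤ N →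
    μ = 0 ∨ ∃ c : ℝ, 0 < c ∧ ∃ ν ∈ convexHull ℝ (SS g j), μ = c • ν := by
  intro N
  induction N with
  | zero =>
    intro μ _ _ _ hN
    left
    funext u
    by_contra h
    have h2 : univ.filter (fun u => μ u ≠ 0) = ∅ := Finset.card_eq_zero.1 (by omega)
    have h3 : u ∈ univ.filter (fun u => μ u ≠ 0) := by
      simp only [mem_filter, mem_univ, true_and]
      exact h
    rw [h2] at h3
    simp at h3
  | succ N ih =>
    intro μ h0 hb hg hN
    by_cases hne : μ = 0
    · exact Or.inl hne
    right
    obtain ⟨L, p, hL, hper, hgold, hpos, hinj⟩ := exists_orbit hgj h0 hb hg hne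
    have hLr : (0 : ℝ) < L := by exact_mod_cast hL
    obtain ⟨i0, hi0, hmin⟩ := Finset.exists_min_image (range L) (fun i => μ (win j p i))
      ⟨0, Finset.mem_range.2 hL⟩
    set ε := μ (win j p i0) with hε
    have hεpos : 0 < ε := hpos i0
    have hon : ∀ i < L, freq j L p (win j p i) * L = 1 := by
      intro i hi
      rw [freq_eq, div_mul_cancel₀ _ hLr.ne', Finset.sum_eq_single i]
      · simp
      · intro i' hi' hne'
        rw [if_neg]
        intro h
        exact hne' (hinj i' (Finset.mem_range.1 hi') i hi h)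
      · intro h
        exact absurd (Finset.mem_range.2 hi) h
    have hoff : ∀ u, (∀ i < L, win j p i ≠ u) → freq j L p u = 0 := by
      intro u hu
      rw [freq_eq, Finset.sum_eq_zero, zero_div]
      intro i hi
      rw [if_neg (hu i (Finset.mem_range.1 hi))]
    set μ' : Wd j → ℝ := fun u => μ u - (ε * L) * freq j L p u with hμ'
    have hcase : ∀ u, (μ' u = μ u ∧ freq j L p u = 0) ∨
        (∃ i < L, win j p i = u ∧ μ' u = μ u - ε) := by
      intro u
      by_cases h : ∃ i < L, win j p i = u
      · right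
        obtain ⟨i, hi, rfl⟩ := h
        refine ⟨i, hi, rfl, ?_⟩
        simp only [hμ']
        rw [mul_assoc, mul_comm (L : ℝ), hon i hi, mul_one]
      · left
        push Not at h
        have := hoff u h
        refine ⟨?_, this⟩
        simp only [hμ']
        rw [this, mul_zero, sub_zero]
    have h0' : ∀ u, 0 ≤ μ' u := by
      intro u
      rcases hcase u with ⟨h, -⟩ | ⟨i, hi, rfl, h⟩
      · rw [h]; exact h0 u
      · rw [h]
        have := hmin i (Finset.mem_range.2 hi)
        linarith
    have hb' : Balanced μ' := by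
      intro s
      simp only [hμ', Finset.sum_sub_distrib, ← Finset.mul_sum]
      rw [hb s, freq_balanced hper s]
    have hg' : Golden g μ' := by
      intro hgt u hu
      have h1 := hg hgt u hu
      rcases hcase u with ⟨h, -⟩ | ⟨i, hi, rfl, h⟩
      · rw [h, h1]
      · exact absurd h1 (hpos i).ne'
    have hN' : (univ.filter (fun u => μ' u ≠ 0)).card ≤ N := by
      have hss : univ.filter (fun u => μ' u ≠ 0) ⊂ univ.filter (fun u => μ u ≠ 0) := by
        rw [Finset.ssubset_iff_of_subset]
        · refine ⟨win j p i0, ?_, ?_⟩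
          · simp only [mem_filter, mem_univ, true_and]
            exact (hpos i0).ne'
          · simp only [mem_filter, mem_univ, true_and, not_not]
            rcases hcase (win j p i0) with ⟨-, h⟩ | ⟨i, hi, -, h⟩
            · have := hon i0 (Finset.mem_range.1 hi0)
              rw [h, zero_mul] at this
              norm_num at this
            · rw [h, sub_self]
        · intro u hu
          simp only [mem_filter, mem_univ, true_and] at hu ⊢
          rcases hcase u with ⟨h, -⟩ | ⟨i, hi, rfl, h⟩
          · rwa [h] at hu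
          · exact (hpos i).ne'
      have := Finset.card_lt_card hss
      omega
    have hfS : freq j L p ∈ convexHull ℝ (SS g j) :=
      subset_convexHull ℝ _ ⟨L, p, hL, hper, hgold, rfl⟩
    have hdec : μ = μ' + (ε * L) • freq j L p := by
      funext u
      simp only [hμ', Pi.add_apply, Pi.smul_apply, smul_eq_mul]
      ring
    have hc : 0 < ε * L := mul_pos hεpos hLr
    rcases ih μ' h0' hb' hg' hN' with h | ⟨c, hcpos, ν, hν, h⟩
    · refine ⟨ε * L, hc, freq j L p, hfS, ?_⟩
      rw [hdec, h, zero_add]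
    · have hsum : 0 < c + ε * L := by positivity
      refine ⟨c + ε * L, hsum, (c / (c + ε * L)) • ν + (ε * L / (c + ε * L)) • freq j L p, ?_, ?_⟩
      · refine convex_convexHull ℝ _ hν hfS (by positivity) (by positivity) ?_
        field_simp
      · rw [hdec, h, smul_add, smul_smul, smul_smul, mul_div_cancel₀ _ hsum.ne',
          mul_div_cancel₀ _ hsum.ne']

theorem main : CycleStm := by
  intro g j hgj μ hμ
  obtain ⟨h0, hsum, hb, hg⟩ := hμ
  rcases cone g j hgj _ μ h0 hb hg le_rfl with h | ⟨c, hc, ν, hν, h⟩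
  · rw [h] at hsum
    simp at hsum
  · have h1 : ∑ u, ν u = 1 := by
      have hsub : convexHull ℝ (SS g j) ⊆ {ν : Wd j → ℝ | ∑ u, ν u = 1} := by
        refine convexHull_min ?_ ?_
        · rintro ν' ⟨L, p, hL, -, -, rfl⟩
          exact freq_sum hL
        · intro a ha b hb' s t hs ht hst
          simp only [Set.mem_ofPred_eq] at ha hb' ⊢
          simp only [Pi.add_apply, Pi.smul_apply, smul_eq_mul, Finset.sum_add_distrib,
            ← Finset.mul_sum, ha, hb', mul_one]
          exact hst
      exact hsub hν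
    have h2 : c = 1 := by
      rw [h] at hsum
      simp only [Pi.smul_apply, smul_eq_mul, ← Finset.mul_sum, h1, mul_one] at hsum
      exact hsum
    rw [h, h2, one_smul]
    exact hν

end FeasR.P1
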