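import Pool.Agent.R666.FR.Stms

/-! Piece FR-10: the coding `E`. -/

namespace FeasR.P10

theorem key {n : ℕ} {σ : Equiv.Perm (Fin n)} (h : Avoids {.p321, .p312} σ) {i j l : Fin n}
    (hij : i < j) (hil : i < l) (hjl : j ≠ l) (h1 : σ j < σ i) (h2 : σ l < σ i) : False := by
  rcases lt_or_gt_of_ne hjl with hlt | hgt
  · rcases lt_or_gt_of_ne (σ.injective.ne hjl) with h3 | h3
    · exact h .p312 (by simp) i j l hij hlt ⟨h3, h2⟩
    · exact h .p321 (by simp) i j l hij hlt ⟨h3, h1⟩
  · rcases lt_or_gt_of_ne (σ.injective.ne hjl) with h3 | h3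
    · exact h .p321 (by simp) i l j hil hgt ⟨h3, h2⟩
    · exact h .p312 (by simp) i l j hil hgt ⟨h3, h1⟩

/-- the number of `true` before `t` -/
def B (w : ℕ → Bool) : ℕ → ℕ
  | 0 => 0
  | t + 1 => B w t + if w t = true then 1 else 0

theorem B_le (w : ℕ → Bool) (a d : ℕ) : B w a ≤ B w (a + d) := by
  induction d with
  | zero => exact le_rfl
  | succ d ih => rw [← add_assoc, B]; omega

theorem B_mono (w : ℕ → Bool) {a b : ℕ} (h : a ≤ b) : B w a ≤ B w b := by
  obtain ⟨d, rfl⟩ := Nat.exists_eq_add_of_le h
  exact B_le w a d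

theorem B_eq (w : ℕ → Bool) (a d : ℕ) (h : ∀ t, a ≤ t → t < a + d → w t = false) :
    B w (a + d) = B w a := by
  induction d with
  | zero => rfl
  | succ d ih =>
    rw [← add_assoc, B, ih (fun t h1 h2 => h t h1 (by omega)), h (a + d) (by omega) (by omega)]
    simp

theorem B_lt (w : ℕ → Bool) {a b t : ℕ} (h1 : a ≤ t) (h2 : t < b) (h3 : w t = true) :
    B w a < B w b := by
  have e1 := B_mono w h1
  have e2 : B w (t + 1) ≤ B w b := B_mono w h2
  rw [B, if_pos h3] at e2
  omega

/-- the integer function -/
def f (n : ℕ) (w : ℕ → Bool) (t : ℕ) : ℤ := 2 * n * B w t + if w t = true then -1 else (t : ℤ)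

theorem f_spec (n : ℕ) (w : ℕ → Bool) {a b : ℕ} (hab : a < b) (hb : b < n) :
    f n w a ≠ f n w b ∧ (f n w b < f n w a ↔ Ty.R .E w a b) := by
  by_cases h : ∀ t, a ≤ t → t < b → w t = false
  · have e : B w b = B w a := by
      obtain ⟨d, rfl⟩ := Nat.exists_eq_add_of_le hab.le
      exact B_eq w a d h
    have ea : w a = false := h a le_rfl hab
    have fa : f n w a = 2 * n * B w a + a := by simp [f, ea]
    by_cases hwb : w b = true
    · have fb : f n w b = 2 * n * B w a - 1 := by simp [f, hwb, e, sub_eq_add_neg]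
      rw [fa, fb]
      refine ⟨by omega, ?_⟩
      constructor
      · intro _; exact ⟨hwb, h⟩
      · intro _; omega
    · have fb : f n w b = 2 * n * B w a + b := by simp [f, hwb, e]
      rw [fa, fb]
      refine ⟨by omega, ?_⟩
      constructor
      · intro hc; omega
      · rintro ⟨hc, -⟩; exact absurd hc hwb
  · push Not at h
    obtain ⟨t, h1, h2, h3⟩ := h
    have h3' : w t = true := by simpa using h3
    have hlt : B w a < B w b := B_lt w h1 h2 h3'
    have e1 : f n w a ≤ 2 * n * B w a + (n - 1) := by
      unfold f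
      split_ifs <;> omega
    have e2 : 2 * n * B w b - 1 ≤ f n w b := by
      unfold f
      split_ifs <;> omega
    have e3 : (2 * n * (B w a + 1) : ℤ) ≤ 2 * n * B w b := by
      have : (B w a + 1 : ℤ) ≤ B w b := by exact_mod_cast hlt
      nlinarith [this, (by positivity : (0 : ℤ) ≤ 2 * n)]
    have e4 : f n w a < f n w b := by nlinarith
    refine ⟨e4.ne, ?_⟩
    constructor
    · intro hc; exact absurd hc (not_lt.2 e4.le)
    · rintro ⟨-, hc⟩
      rw [hc t h1 h2] at h3'
      exact absurd h3' (by simp)

theorem h2 (hS : StdStm) : H2 {.p321, .p312} .E false := by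
  intro n w _
  obtain ⟨σ, hσ⟩ := hS n (fun t : Fin n => f n w t) (by
    intro a b hab
    by_contra hne
    rcases lt_or_gt_of_ne hne with h | h
    · exact (f_spec n w (Fin.lt_def.1 h) b.2).1 hab
    · exact (f_spec n w (Fin.lt_def.1 h) a.2).1 hab.symm)
  have hcode : Code .E σ w := by
    intro a b hab
    rw [hσ]
    exact (f_spec n w (Fin.lt_def.1 hab) b.2).2
  refine ⟨σ, ?_, hcode⟩
  have hk : ∀ i j l : Fin n, i < j → j < l → σ j < σ i → σ l < σ i → False := by
    intro i j l hij hjl h1 h2
    have r1 := ((hcode i j hij).1 h1).1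
    have r2 := ((hcode i l (hij.trans hjl)).1 h2).2 j (Fin.le_def.1 hij.le) (Fin.lt_def.1 hjl)
    rw [r1] at r2
    exact absurd r2 (by simp)
  intro p hp i j l hij hjl hrel
  simp only [Finset.mem_insert, Finset.mem_singleton] at hp
  rcases hp with rfl | rfl
  · exact hk i j l hij hjl hrel.2 (hrel.1.trans hrel.2)
  · exact hk i j l hij hjl (hrel.1.trans hrel.2) hrel.2

open Classical in
theorem h1 : H1 {.p321, .p312} .E false := by
  intro n σ hσ
  let w : ℕ → Bool := fun t => decide (∀ a c : Fin n, (a : ℕ) ≤ t → t < (c : ℕ) → σ a < σ c)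
  have wt : ∀ t, w t = true → ∀ a c : Fin n, (a : ℕ) ≤ t → t < (c : ℕ) → σ a < σ c := by
    intro t ht
    exact of_decide_eq_true ht
  have wf : ∀ t, w t = false → ∃ a c : Fin n, (a : ℕ) ≤ t ∧ t < (c : ℕ) ∧ σ c < σ a := by
    intro t ht
    have h := of_decide_eq_false ht
    push Not at h
    obtain ⟨a, c, h1, h2, h3⟩ := h
    refine ⟨a, c, h1, h2, lt_of_le_of_ne h3 ?_⟩
    intro he
    have := σ.injective he
    omega
  -- (⇒)
  have fwd : ∀ a b : Fin n, a < b → σ b < σ a → w b = true ∧ ∀ t, (a : ℕ) ≤ t → t < (b : ℕ) → w t = false := by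
    intro a b hab hinv
    constructor
    · apply decide_eq_true
      intro a' c h1 h2
      by_contra hcon
      have hne : a' ≠ c := by
        intro he; subst he; omega
      have hlt : σ c < σ a' := lt_of_le_of_ne (not_lt.1 hcon) (σ.injective.ne hne.symm)
      have hbc : b ≠ c := by
        intro he; subst he; omega
      rcases lt_or_ge (σ b) (σ a') with h3 | h3
      · have ha'b : a' < b := by
          rcases eq_or_lt_of_le (show a' ≤ b from h1) with h4 | h4
          · subst h4; exact absurd h3 (lt_irrefl _)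
          · exact h4
        exact key hσ ha'b (ha'b.trans h2) hbc h3 hlt
      · exact key hσ hab (hab.trans h2) hbc hinv ((hlt.trans_le h3).trans hinv)
    · intro t h1 h2
      by_contra hcon
      have hw : w t = true := by simpa using hcon
      exact absurd (wt t hw a b h1 h2) (not_lt.2 hinv.le)
  refine ⟨w, fun h => absurd h (by simp), ?_⟩
  intro a b hab
  constructor
  · intro hinv
    exact fwd a b hab hinv
  · rintro ⟨hwb, hwf⟩
    have hab' : (a : ℕ) < b := hab
    -- inversions ending at `b`
    have ex : ∃ x : Fin n, x < b ∧ σ b < σ x := by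
      obtain ⟨x, y, h1, h2, h3⟩ := wf (b - 1) (hwf (b - 1) (by omega) (by omega))
      have hyb : (y : ℕ) ≤ b := by
        by_contra hcon
        exact absurd (wt b hwb x y (by omega) (by omega)) (not_lt.2 h3.le)
      have hy : y = b := Fin.ext (by omega)
      subst hy
      exact ⟨x, Fin.lt_def.2 (by omega), h3⟩
    have main : ∀ m : ℕ, ∀ x : Fin n, (x : ℕ) = m → x < b → σ b < σ x → σ b < σ a := by
      intro m
      induction m using Nat.strong_induction_on with
      | _ m ih =>
        intro x hxm hxb hinv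
        rcases lt_trichotomy (x : ℕ) a with hxa | hxa | hxa
        · by_contra hcon
          have hne : a ≠ b := ne_of_lt hab
          have h1 : σ a < σ b := lt_of_le_of_ne (not_lt.1 hcon) (σ.injective.ne hne)
          exact key hσ (show x < a from hxa) hxb hne (h1.trans hinv) hinv
        · have : x = a := Fin.ext hxa
          subst this
          exact hinv
        · have hxb' : (x : ℕ) < b := hxb
          obtain ⟨x', y', h1, h2, h3⟩ := wf (x - 1) (hwf (x - 1) (by omega) (by omega))
          have hyb : (y' : ℕ) ≤ b := by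
            by_contra hcon
            exact absurd (wt b hwb x' y' (by omega) (by omega)) (not_lt.2 h3.le)
          have hw := (fwd x' y' (Fin.lt_def.2 (by omega)) h3).1
          have hy : y' = b := by
            by_contra hne
            have hne' : (y' : ℕ) ≠ b := fun h => hne (Fin.ext h)
            rw [hwf y' (by omega) (by omega)] at hw
            exact absurd hw (by simp)
          subst hy
          exact ih x' (by omega) x' rfl (Fin.lt_def.2 (by omega)) h3
    obtain ⟨x, hx1, hx2⟩ := ex
    exact main x x rfl hx1 hx2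

theorem main : StdStm → CodeEStm := fun hS => ⟨h1, h2 hS⟩

end FeasR.P10
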