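import Pool.Agent.R666.FR.Stms

/-!
# Piece FR-11: the coding `F`
-/

namespace FeasR.P11

theorem h1 : H1 {.p321, .p231} .F false := by
  classical
  intro n σ hσ
  have key : ∀ i j l : Fin n, i < j → j < l → σ l < σ i → σ l < σ j → False := by
    intro i j l hij hjl h1 h2
    rcases lt_trichotomy (σ i) (σ j) with h | h | h
    · exact hσ .p231 (by simp) i j l hij hjl ⟨h1, h⟩
    · exact absurd (σ.injective h) hij.ne
    · exact hσ .p321 (by simp) i j l hij hjl ⟨h2, h⟩
  let w : ℕ → Bool := fun t => decide (∀ a c : Fin n, (a : ℕ) < t → t ≤ (c : ℕ) → σ a < σ c)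
  have hw : ∀ t, w t = true ↔ ∀ a c : Fin n, (a : ℕ) < t → t ≤ (c : ℕ) → σ a < σ c := by
    intro t
    simp only [w, decide_eq_true_eq]
  have hwf : ∀ t, w t = false → ∃ a c : Fin n, (a : ℕ) < t ∧ t ≤ (c : ℕ) ∧ σ c < σ a := by
    intro t ht
    by_contra hcon
    have : w t = true := by
      rw [hw]
      intro a c ha hc
      by_contra h
      apply hcon
      refine ⟨a, c, ha, hc, lt_of_le_of_ne (not_lt.1 h) ?_⟩
      intro he
      have := σ.injective he
      subst this
      omega
    rw [this] at ht
    exact absurd ht (by simp)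
  have fwd : ∀ a b : Fin n, a < b → σ b < σ a → w a = true := by
    intro a b hab hinv
    rw [hw]
    intro c d hc hd
    by_contra hcon
    have hne : σ d ≠ σ c := by
      intro he
      have := σ.injective he
      subst this
      omega
    have hdc : σ d < σ c := lt_of_le_of_ne (not_lt.1 hcon) hne
    have hca : c < a := hc
    rcases eq_or_lt_of_le hd with h | h
    · have had : a = d := Fin.ext h
      subst had
      exact key c a b hca hab (hinv.trans hdc) hinv
    · have had : a < d := h
      by_cases h2 : σ d < σ a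
      · exact key c a d hca had hdc h2
      · exact key c a b hca hab (hinv.trans (lt_of_le_of_lt (not_lt.1 h2) hdc)) hinv
  refine ⟨w, fun h => absurd h (by simp), ?_⟩
  intro a b hab
  constructor
  · intro hinv
    refine ⟨fwd a b hab hinv, ?_⟩
    intro t hat htb
    by_contra hcon
    have h1 : w t = true := by simpa using hcon
    rw [hw] at h1
    exact absurd (h1 a b hat htb) (not_lt.2 hinv.le)
  · rintro ⟨ha, hf⟩
    have hab' : (a : ℕ) < b := hab
    obtain ⟨x, y, hx, hy, hxy⟩ := hwf b (hf b hab' le_rfl)
    have hxa : (a : ℕ) ≤ x := by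
      by_contra h
      exact absurd ((hw _).1 ha x y (by omega) (by omega)) (not_lt.2 hxy.le)
    have hxy' : x < y := Fin.lt_def.2 (by omega)
    have hwx := fwd x y hxy' hxy
    have hxa' : x = a := by
      by_contra h
      have h1 : (x : ℕ) ≠ a := fun h' => h (Fin.ext h')
      have h2 := hf x (by omega) (by omega)
      rw [hwx] at h2
      exact absurd h2 (by simp)
    subst hxa'
    rcases eq_or_lt_of_le hy with h | h
    · have : b = y := Fin.ext h
      subst this
      exact hxy
    · by_contra hcon
      have hne : σ x ≠ σ b := fun he => absurd (σ.injective he) hab.ne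
      have hlt : σ x < σ b := lt_of_le_of_ne (not_lt.1 hcon) hne
      exact key x b y hab h hxy (hxy.trans hlt)

/-- number of `true` letters up to `t` -/
def bb (w : ℕ → Bool) (t : ℕ) : ℕ := ((Finset.range (t + 1)).filter (fun s => w s = true)).card

lemma bb_succ (w : ℕ → Bool) (t : ℕ) :
    bb w (t + 1) = bb w t + (if w (t + 1) = true then 1 else 0) := by
  unfold bb
  rw [Finset.range_add_one (n := t + 1), Finset.filter_insert]
  split_ifs with h
  · rw [Finset.card_insert_of_notMem (by simp)]
  · simp

lemma bb_mono (w : ℕ → Bool) : Monotone (bb w) := by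
  apply monotone_nat_of_le_succ
  intro t
  rw [bb_succ]
  omega

lemma bb_eq (w : ℕ → Bool) (a b : ℕ) (hab : a ≤ b) (h : ∀ t, a < t → t ≤ b → w t = false) :
    bb w b = bb w a := by
  induction b, hab using Nat.le_induction with
  | base => rfl
  | succ b hab ih =>
    rw [bb_succ, ih (fun t h1 h2 => h t h1 (by omega)), h (b + 1) (by omega) le_rfl]
    simp

lemma bb_lt (w : ℕ → Bool) (a b t : ℕ) (h1 : a < t) (h2 : t ≤ b) (h : w t = true) :
    bb w a < bb w b := by
  obtain ⟨s, rfl⟩ : ∃ s, t = s + 1 := ⟨t - 1, by omega⟩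
  have e1 := bb_succ w s
  rw [if_pos h] at e1
  have e2 := bb_mono w (show a ≤ s by omega)
  have e3 := bb_mono w h2
  omega

theorem h2 (hS : StdStm) : H2 {.p321, .p231} .F false := by
  intro n w _
  let f : Fin n → ℤ := fun t => 2 * (n : ℤ) * bb w t + (if w t = true then (n : ℤ) else (t : ℤ))
  have hf : ∀ a b : Fin n, a < b →
      (f b < f a ↔ (w a = true ∧ ∀ t, (a : ℕ) < t → t ≤ (b : ℕ) → w t = false)) ∧ f a ≠ f b := by
    intro a b hab
    have hab' : (a : ℕ) < b := hab
    have han := a.2
    have hbn := b.2
    by_cases hc : ∀ t, (a : ℕ) < t → t ≤ (b : ℕ) → w t = false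
    · have e := bb_eq w a b hab'.le hc
      have e2 := hc b hab' le_rfl
      have fb : f b = 2 * (n : ℤ) * bb w a + (b : ℤ) := by
        simp only [f, e, e2]
        simp
      by_cases hwa : w a = true
      · have fa : f a = 2 * (n : ℤ) * bb w a + (n : ℤ) := by
          simp only [f, hwa]
          simp
        have : f b < f a := by rw [fa, fb]; omega
        exact ⟨⟨fun _ => ⟨hwa, hc⟩, fun _ => this⟩, this.ne'⟩
      · have fa : f a = 2 * (n : ℤ) * bb w a + (a : ℤ) := by
          simp only [f]
          rw [if_neg hwa]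
        have : f a < f b := by rw [fa, fb]; omega
        exact ⟨⟨fun h => absurd h (not_lt.2 this.le), fun h => absurd h.1 hwa⟩, this.ne⟩
    · have hc' : ∃ t, (a : ℕ) < t ∧ t ≤ (b : ℕ) ∧ w t = true := by
        by_contra h
        apply hc
        intro t h1 h2
        by_contra h3
        exact h ⟨t, h1, h2, by simpa using h3⟩
      obtain ⟨t, h1, h2, h3⟩ := hc'
      have e := bb_lt w a b t h1 h2 h3
      have e1 : (bb w a : ℤ) + 1 ≤ bb w b := by exact_mod_cast e
      have fa : f a ≤ 2 * (n : ℤ) * bb w a + (n : ℤ) := by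
        simp only [f]
        split_ifs
        · exact le_rfl
        · omega
      have fb : 2 * (n : ℤ) * bb w b ≤ f b := by
        simp only [f]
        split_ifs
        · omega
        · omega
      have e3 : 2 * (n : ℤ) * (bb w a + 1) ≤ 2 * (n : ℤ) * bb w b :=
        mul_le_mul_of_nonneg_left e1 (by positivity)
      have : f a < f b := by
        have : (0 : ℤ) < n := by omega
        nlinarith
      exact ⟨⟨fun h => absurd h (not_lt.2 this.le), fun h => absurd h.2 hc⟩, this.ne⟩
  have hinj : Function.Injective f := by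
    intro a b hab
    rcases lt_trichotomy a b with h | h | h
    · exact absurd hab (hf a b h).2
    · exact h
    · exact absurd hab.symm (hf b a h).2
  obtain ⟨σ, hσ⟩ := hS n f hinj
  have hcode : ∀ a b : Fin n, a < b →
      (σ b < σ a ↔ (w a = true ∧ ∀ t, (a : ℕ) < t → t ≤ (b : ℕ) → w t = false)) := by
    intro a b hab
    rw [hσ]
    exact (hf a b hab).1
  refine ⟨σ, ?_, hcode⟩
  have key : ∀ i j l : Fin n, i < j → j < l → σ l < σ i → σ l < σ j → False := by
    intro i j l hij hjl h1 h2
    have e1 := (hcode i l (hij.trans hjl)).1 h1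
    have e2 := (hcode j l hjl).1 h2
    have e3 := e1.2 j hij hjl.le
    rw [e2.1] at e3
    exact absurd e3 (by simp)
  intro p hp i j l hij hjl hrel
  simp only [Finset.mem_insert, Finset.mem_singleton] at hp
  rcases hp with rfl | rfl
  · exact key i j l hij hjl (hrel.1.trans hrel.2) hrel.1
  · exact key i j l hij hjl hrel.1 (hrel.1.trans hrel.2)

theorem main : StdStm → CodeFStm := fun hS => ⟨h1, h2 hS⟩

end FeasR.P11
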