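import Pool.Agent.R666.FR.Stms

/-!
# FR-12: complementation
-/

namespace FeasR.P12

open Filter Topology FeasR

lemma rel_c {n : ℕ} (p : P3) (x y z : Fin n) : p.c.Rel x.rev y.rev z.rev ↔ p.Rel x y z := by
  cases p <;> simp [P3.c, P3.Rel, Fin.rev_lt_rev, and_comm]

lemma cpl_apply {k : ℕ} (π : Equiv.Perm (Fin k)) (a : Fin k) : cpl π a = (π a).rev := rfl

lemma cpl_cpl {k : ℕ} (π : Equiv.Perm (Fin k)) : cpl (cpl π) = π := by
  ext a
  simp [cpl_apply]

lemma avoids_cpl (B : Finset P3) {n : ℕ} (σ : Equiv.Perm (Fin n)) :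
    Avoids (B.image P3.c) (cpl σ) ↔ Avoids B σ := by
  unfold Avoids
  constructor
  · intro h p hp i j l hij hjl hr
    exact h p.c (Finset.mem_image_of_mem _ hp) i j l hij hjl ((rel_c p _ _ _).2 hr)
  · intro h q hq i j l hij hjl hr
    obtain ⟨p, hp, rfl⟩ := Finset.mem_image.1 hq
    exact h p hp i j l hij hjl ((rel_c p _ _ _).1 hr)

lemma occAt_cpl {k n : ℕ} (π : Equiv.Perm (Fin k)) (σ : Equiv.Perm (Fin n)) (i : ℕ) :
    OccAt (cpl π) (cpl σ) i ↔ OccAt π σ i := by
  unfold OccAt
  refine exists_congr fun h => ?_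
  simp only [cpl_apply, Fin.rev_lt_rev]
  exact forall_comm

lemma cocc_cpl {k n : ℕ} (π : Equiv.Perm (Fin k)) (σ : Equiv.Perm (Fin n)) :
    cocc (cpl π) (cpl σ) = cocc π σ := by
  classical
  unfold cocc
  congr 1
  apply Finset.filter_congr
  intro i _
  exact occAt_cpl π σ i

lemma cocc_swap {k n : ℕ} (π : Equiv.Perm (Fin k)) (σ : Equiv.Perm (Fin n)) :
    cocc (cpl π) σ = cocc π (cpl σ) := by
  rw [← cocc_cpl π (cpl σ), cpl_cpl]

theorem main : CplStm := by
  constructor
  · intro B k
    ext v
    constructor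
    · rintro ⟨N, σ, hav, hN, hl⟩
      show (fun π => v (cpl π)) ∈ Region B k
      refine ⟨N, fun m => cpl (σ m), fun m => ?_, hN, fun π => ?_⟩
      · rw [← avoids_cpl, cpl_cpl]
        exact hav m
      · have := hl (cpl π)
        simp only [cocc_swap] at this
        exact this
    · intro hv
      have hv' : (fun π => v (cpl π)) ∈ Region B k := hv
      obtain ⟨N, σ, hav, hN, hl⟩ := hv'
      refine ⟨N, fun m => cpl (σ m), fun m => (avoids_cpl B (σ m)).2 (hav m), hN, fun π => ?_⟩
      have := hl (cpl π)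
      simp only [cocc_swap, cpl_cpl] at this
      exact this
  · intro k
    ext v
    have key : ∀ ρ : Equiv.Perm (Fin k), eInc k (cpl ρ) = eDec k ρ := by
      intro ρ
      unfold eInc eDec
      by_cases h : ρ = Fin.revPerm
      · subst h
        have h1 : cpl (Fin.revPerm : Equiv.Perm (Fin k)) = 1 := by
          ext a
          simp [cpl_apply]
        rw [h1]
        simp
      · have h1 : cpl ρ ≠ 1 := by
          intro h2
          apply h
          rw [← cpl_cpl ρ, h2]
          ext a
          simp [cpl_apply]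
        rw [Pi.single_eq_of_ne h1, Pi.single_eq_of_ne h]
    constructor
    · intro hv
      have hv' : (fun π => v (cpl π)) = eInc k := hv
      show v = eDec k
      funext ρ
      have h2 := congrFun hv' (cpl ρ)
      simp only [cpl_cpl] at h2
      rw [h2, key]
    · intro hv
      have hv' : v = eDec k := hv
      show (fun π => v (cpl π)) = eInc k
      funext ρ
      rw [hv', ← key, cpl_cpl]

end FeasR.P12
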