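import Pool.Agent.R666.FR.Stms

/-!
# FR-13: at most one descent
-/

namespace FeasR.P13

open Filter Topology FeasR

/-- Descent at position `d`. -/
def Desc {n : ℕ} (σ : Equiv.Perm (Fin n)) (d : ℕ) : Prop :=
  ∃ h : d + 1 < n, σ ⟨d + 1, h⟩ < σ ⟨d, by omega⟩

lemma desc_lt {B : Finset P3} (h321 : P3.p321 ∈ B) (hB : P3.p132 ∈ B ∨ P3.p213 ∈ B) {n : ℕ}
    {σ : Equiv.Perm (Fin n)} (hav : Avoids B σ) {d e : ℕ} (hd : Desc σ d) (he : Desc σ e)
    (hde : d < e) : False := by
  obtain ⟨h1, h2⟩ := hd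
  obtain ⟨h3, h4⟩ := he
  by_cases hc : e = d + 1
  · subst hc
    exact hav _ h321 ⟨d, by omega⟩ ⟨d + 1, h1⟩ ⟨d + 1 + 1, h3⟩ (Fin.mk_lt_mk.2 (by omega))
      (Fin.mk_lt_mk.2 (by omega)) ⟨h4, h2⟩
  · rcases hB with hB | hB
    · by_cases hx : σ ⟨d + 1, h1⟩ < σ ⟨e + 1, h3⟩
      · exact hav _ hB ⟨d + 1, h1⟩ ⟨e, by omega⟩ ⟨e + 1, h3⟩ (Fin.mk_lt_mk.2 (by omega))
          (Fin.mk_lt_mk.2 (by omega)) ⟨hx, h4⟩
      · have hne : σ ⟨d + 1, h1⟩ ≠ σ ⟨e + 1, h3⟩ := by
          intro hh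
          have := σ.injective hh
          simp only [Fin.mk.injEq] at this
          omega
        have hlt : σ ⟨e + 1, h3⟩ < σ ⟨d + 1, h1⟩ := lt_of_le_of_ne (not_lt.1 hx) (Ne.symm hne)
        exact hav _ h321 ⟨d, by omega⟩ ⟨d + 1, h1⟩ ⟨e + 1, h3⟩ (Fin.mk_lt_mk.2 (by omega))
          (Fin.mk_lt_mk.2 (by omega)) ⟨hlt, h2⟩
    · by_cases hx : σ ⟨d, by omega⟩ < σ ⟨e, by omega⟩
      · exact hav _ hB ⟨d, by omega⟩ ⟨d + 1, h1⟩ ⟨e, by omega⟩ (Fin.mk_lt_mk.2 (by omega))
          (Fin.mk_lt_mk.2 (by omega)) ⟨h2, hx⟩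
      · have hne : σ ⟨d, by omega⟩ ≠ σ ⟨e, by omega⟩ := by
          intro hh
          have := σ.injective hh
          simp only [Fin.mk.injEq] at this
          omega
        have hlt : σ ⟨e, by omega⟩ < σ ⟨d, by omega⟩ := lt_of_le_of_ne (not_lt.1 hx) (Ne.symm hne)
        exact hav _ h321 ⟨d, by omega⟩ ⟨e, by omega⟩ ⟨e + 1, h3⟩ (Fin.mk_lt_mk.2 (by omega))
          (Fin.mk_lt_mk.2 (by omega)) ⟨h4, hlt⟩

lemma occ_one {n j i : ℕ} (σ : Equiv.Perm (Fin n)) (hi : i + (j + 1) ≤ n)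
    (hnd : ∀ t, t < j → ¬ Desc σ (i + t)) : OccAt (1 : Equiv.Perm (Fin (j + 1))) σ i := by
  refine ⟨hi, fun a b => ?_⟩
  have hmono : StrictMono (fun a : Fin (j + 1) => σ ⟨i + a, by omega⟩) := by
    rw [Fin.strictMono_iff_lt_succ]
    intro t
    have h1 := hnd t t.2
    have h2 : ¬ (σ ⟨i + t + 1, by omega⟩ < σ ⟨i + t, by omega⟩) := fun h => h1 ⟨by omega, h⟩
    have hne : σ ⟨i + t, by omega⟩ ≠ σ ⟨i + t + 1, by omega⟩ := by
      intro hh
      have := σ.injective hh
      simp only [Fin.mk.injEq] at this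
      omega
    exact lt_of_le_of_ne (not_lt.1 h2) hne
  have := hmono.lt_iff_lt (a := a) (b := b)
  simp only [Equiv.Perm.coe_one, id_eq]
  exact this.symm

lemma occ_unique {n k i : ℕ} (σ : Equiv.Perm (Fin n)) {π : Equiv.Perm (Fin k)}
    (h1 : OccAt π σ i) (h2 : OccAt (1 : Equiv.Perm (Fin k)) σ i) : π = 1 := by
  obtain ⟨_, h1⟩ := h1
  obtain ⟨_, h2⟩ := h2
  have hm : StrictMono π := by
    intro a b hab
    rw [h1, ← h2]
    exact hab
  have : (π : Fin k → Fin k) = id := hm.eq_id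
  ext a
  simp [this]

open Classical in
lemma bad_card {B : Finset P3} (h321 : P3.p321 ∈ B) (hB : P3.p132 ∈ B ∨ P3.p213 ∈ B) {n : ℕ}
    {σ : Equiv.Perm (Fin n)} (hav : Avoids B σ) (j : ℕ) :
    ((Finset.range (n - j)).filter
      (fun i => ¬ OccAt (1 : Equiv.Perm (Fin (j + 1))) σ i)).card ≤ j := by
  by_cases hD : ∃ d, Desc σ d
  · obtain ⟨d, hd⟩ := hD
    have hbad : ∀ i ∈ ((Finset.range (n - j)).filter
        (fun i => ¬ OccAt (1 : Equiv.Perm (Fin (j + 1))) σ i)), i ≤ d ∧ d < i + j := by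
      intro i hi
      rw [Finset.mem_filter, Finset.mem_range] at hi
      by_contra hcon
      apply hi.2
      apply occ_one σ (by omega)
      intro t ht hdt
      rcases lt_trichotomy (i + t) d with h | h | h
      · exact desc_lt h321 hB hav hdt hd h
      · omega
      · exact desc_lt h321 hB hav hd hdt h
    have := Finset.card_le_card_of_injOn (t := Finset.range j) (fun i => d - i)
      (fun i hi => by
        have := hbad i hi
        simp only [Finset.coe_range, Set.mem_Iio]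
        omega)
      (fun a ha b hb hab => by
        have h1 := hbad a ha
        have h2 := hbad b hb
        simp only at hab
        omega)
    simpa using this
  · have : ((Finset.range (n - j)).filter
      (fun i => ¬ OccAt (1 : Equiv.Perm (Fin (j + 1))) σ i)) = ∅ := by
      apply Finset.filter_eq_empty_iff.2
      intro i hi hni
      apply hni
      have := Finset.mem_range.1 hi
      exact occ_one σ (by omega) fun t _ hdt => hD ⟨_, hdt⟩
    rw [this]
    simp

lemma cocc_le {B : Finset P3} (h321 : P3.p321 ∈ B) (hB : P3.p132 ∈ B ∨ P3.p213 ∈ B) {n : ℕ}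
    {σ : Equiv.Perm (Fin n)} (hav : Avoids B σ) (j : ℕ) {π : Equiv.Perm (Fin (j + 1))}
    (hπ : π ≠ 1) : cocc π σ ≤ j := by
  classical
  refine le_trans ?_ (bad_card h321 hB hav j)
  unfold cocc
  apply Finset.card_le_card
  intro i hi
  rw [Finset.mem_filter] at hi ⊢
  obtain ⟨h1, _⟩ := hi.2
  exact ⟨Finset.mem_range.2 (by omega), fun h => hπ (occ_unique σ hi.2 h)⟩

lemma cocc_one_le {n : ℕ} (σ : Equiv.Perm (Fin n)) (j : ℕ) :
    cocc (1 : Equiv.Perm (Fin (j + 1))) σ ≤ n + 1 := by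
  classical
  unfold cocc
  refine (Finset.card_filter_le _ _).trans ?_
  simp

lemma le_cocc_one {B : Finset P3} (h321 : P3.p321 ∈ B) (hB : P3.p132 ∈ B ∨ P3.p213 ∈ B) {n : ℕ}
    {σ : Equiv.Perm (Fin n)} (hav : Avoids B σ) (j : ℕ) :
    n ≤ cocc (1 : Equiv.Perm (Fin (j + 1))) σ + 2 * j := by
  classical
  have h1 := bad_card h321 hB hav j
  have h2 := Finset.card_filter_add_card_filter_not (s := Finset.range (n - j))
    (fun i => OccAt (1 : Equiv.Perm (Fin (j + 1))) σ i)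
  have h3 : ((Finset.range (n - j)).filter
      (fun i => OccAt (1 : Equiv.Perm (Fin (j + 1))) σ i)).card ≤
      cocc (1 : Equiv.Perm (Fin (j + 1))) σ := by
    unfold cocc
    apply Finset.card_le_card
    apply Finset.filter_subset_filter
    intro i hi
    rw [Finset.mem_range] at hi ⊢
    omega
  rw [Finset.card_range] at h2
  omega

lemma lim {B : Finset P3} (h321 : P3.p321 ∈ B) (hB : P3.p132 ∈ B ∨ P3.p213 ∈ B) (j : ℕ)
    (N : ℕ → ℕ) (σ : ∀ m, Equiv.Perm (Fin (N m))) (hav : ∀ m, Avoids B (σ m))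
    (hN : Tendsto N atTop atTop) (π : Equiv.Perm (Fin (j + 1))) :
    Tendsto (fun m => (cocc π (σ m) : ℝ) / (N m : ℝ)) atTop (𝓝 (eInc (j + 1) π)) := by
  have hNr : Tendsto (fun m => (N m : ℝ)) atTop atTop :=
    tendsto_natCast_atTop_atTop.comp hN
  have hpos : ∀ᶠ m in atTop, 0 < (N m : ℝ) := hNr.eventually_gt_atTop 0
  by_cases hπ : π = 1
  · subst hπ
    have he : eInc (j + 1) 1 = 1 := by simp [eInc]
    rw [he]
    have hlo : Tendsto (fun m => 1 - (2 * (j : ℝ)) / (N m : ℝ)) atTop (𝓝 1) := by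
      have := (tendsto_const_nhds (x := 2 * (j : ℝ)) (f := atTop)).div_atTop hNr
      simpa using this.const_sub 1
    have hhi : Tendsto (fun m => 1 + (1 : ℝ) / (N m : ℝ)) atTop (𝓝 1) := by
      have := (tendsto_const_nhds (x := (1 : ℝ)) (f := atTop)).div_atTop hNr
      simpa using this.const_add 1
    refine tendsto_of_tendsto_of_tendsto_of_le_of_le' hlo hhi ?_ ?_
    · filter_upwards [hpos] with m hm
      have h1 : (N m : ℝ) ≤ cocc (1 : Equiv.Perm (Fin (j + 1))) (σ m) + 2 * j := by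
        exact_mod_cast le_cocc_one h321 hB (hav m) j
      rw [le_div_iff₀ hm, sub_mul, div_mul_cancel₀ _ hm.ne']
      linarith
    · filter_upwards [hpos] with m hm
      have h1 : (cocc (1 : Equiv.Perm (Fin (j + 1))) (σ m) : ℝ) ≤ N m + 1 := by
        exact_mod_cast cocc_one_le (σ m) j
      rw [div_le_iff₀ hm, add_mul, div_mul_cancel₀ _ hm.ne']
      linarith
  · have he : eInc (j + 1) π = 0 := by simp [eInc, Pi.single_eq_of_ne hπ]
    rw [he]
    have hhi : Tendsto (fun m => (j : ℝ) / (N m : ℝ)) atTop (𝓝 0) :=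
      (tendsto_const_nhds (x := (j : ℝ)) (f := atTop)).div_atTop hNr
    refine tendsto_of_tendsto_of_tendsto_of_le_of_le' tendsto_const_nhds hhi ?_ ?_
    · exact Filter.Eventually.of_forall fun m => by positivity
    · filter_upwards [hpos] with m hm
      have h1 : (cocc π (σ m) : ℝ) ≤ j := by exact_mod_cast cocc_le h321 hB (hav m) j hπ
      gcongr

theorem main : IncStm := by
  intro B h321 h123 hB j
  ext v
  rw [Set.mem_singleton_iff]
  constructor
  · rintro ⟨N, σ, hav, hN, hl⟩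
    funext π
    exact tendsto_nhds_unique (hl π) (lim h321 hB j N σ hav hN π)
  · intro hv
    have hav : ∀ m : ℕ, Avoids B (1 : Equiv.Perm (Fin m)) := by
      intro m p hp a b c hab hbc hr
      simp only [Equiv.Perm.coe_one, id_eq] at hr
      cases p with
      | p123 => exact h123 hp
      | p132 => exact absurd hr.2 (not_lt.2 hbc.le)
      | p213 => exact absurd hr.1 (not_lt.2 hab.le)
      | p231 => exact absurd hr.1 (not_lt.2 (hab.trans hbc).le)
      | p312 => exact absurd hr.2 (not_lt.2 (hab.trans hbc).le)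
      | p321 => exact absurd hr.1 (not_lt.2 hbc.le)
    refine ⟨fun m => m, fun m => 1, hav, tendsto_id, fun π => ?_⟩
    rw [hv]
    exact lim h321 hB j _ _ hav tendsto_id π

end FeasR.P13
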