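import Pool.Agent.R666.FR.Defs

/-!
# Piece statements for MP_9c7f60_co (project FR)

Paper proofs of all pieces are in `NOTES.md`.
-/

namespace FeasR

open Filter Topology

/-- The window of length `j + 1` of `w` starting at `i`. -/
def win (j : ℕ) (w : ℕ → Bool) (i : ℕ) : Fin (j + 1) → Bool := fun t => w (i + t)

/-- The number of windows of length `j + 1` inside the first `n` letters of `w` equal to `u`. -/
def cnt (j : ℕ) (w : ℕ → Bool) (n : ℕ) (u : Fin (j + 1) → Bool) : ℕ :=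
  ((Finset.range (n - j)).filter (fun i => win j w i = u)).card

/-- If `g = true`: no two consecutive `true`. -/
def Gold (g : Bool) (w : ℕ → Bool) : Prop :=
  g = true → ∀ t, ¬ (w t = true ∧ w (t + 1) = true)

/-- Window frequencies of a periodic word with period `L`. -/
noncomputable def freq (j L : ℕ) (p : ℕ → Bool) (u : Fin (j + 1) → Bool) : ℝ :=
  (((Finset.range L).filter (fun i => win j p i = u)).card : ℝ) / (L : ℝ)

/-- Vectors that are limits of window frequencies of finite words (one word per length). -/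
def Approx (g : Bool) (j : ℕ) : Set ((Fin (j + 1) → Bool) → ℝ) :=
  {μ | ∃ w : ℕ → ℕ → Bool, (∀ n, Gold g (w n)) ∧
    ∀ u, Tendsto (fun n : ℕ => (cnt j (w n) n u : ℝ) / (n : ℝ)) atTop (𝓝 (μ u))}

/-! ## FR-1, FR-2, FR-3: approximation of balanced vectors -/

/-- FR-1: a balanced vector is a convex combination of frequency vectors of periodic words. -/
def CycleStm : Prop :=
  ∀ (g : Bool) (j : ℕ), (g = true → 1 ≤ j) → ∀ μ ∈ Bal g j,
    μ ∈ convexHull ℝ {ν | ∃ (L : ℕ) (p : ℕ → Bool), 0 < L ∧ (∀ t, p (t + L) = p t) ∧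
      Gold g p ∧ ν = freq j L p}

/-- FR-2: a periodic word has its window frequencies. -/
def PeriodicStm : Prop :=
  ∀ (j L : ℕ) (p : ℕ → Bool), 0 < L → (∀ t, p (t + L) = p t) → ∀ u,
    Tendsto (fun n : ℕ => (cnt j p n u : ℝ) / (n : ℝ)) atTop (𝓝 (freq j L p u))

/-- FR-3: the approximable vectors form a convex set. -/
def ConvexStm : Prop := ∀ (g : Bool) (j : ℕ), Convex ℝ (Approx g j)

/-! ## FR-4, FR-5, FR-6: transfer -/

/-- FR-4: consecutive occurrences in a coded permutation are counted by windows of the code. -/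
def CoccStm : Prop :=
  ∀ (T : Ty) (j n : ℕ) (σ : Equiv.Perm (Fin n)) (w : ℕ → Bool), Code T σ w →
    ∀ π : Equiv.Perm (Fin (j + 1)),
      (cocc π σ : ℝ) = (open Classical in ∑ u with Code T π (ext u), (cnt j w n u : ℝ))

/-- Every permutation of the class is coded. -/
def H1 (B : Finset P3) (T : Ty) (g : Bool) : Prop :=
  ∀ (n : ℕ) (σ : Equiv.Perm (Fin n)), Avoids B σ → ∃ w : ℕ → Bool, Gold g w ∧ Code T σ w

/-- Every word codes a permutation of the class. -/
def H2 (B : Finset P3) (T : Ty) (g : Bool) : Prop :=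
  ∀ (n : ℕ) (w : ℕ → Bool), Gold g w → ∃ σ : Equiv.Perm (Fin n), Avoids B σ ∧ Code T σ w

/-- FR-5: one inclusion. -/
def UpperStm : Prop :=
  ∀ (B : Finset P3) (T : Ty) (g : Bool), H1 B T g → ∀ j, Region B (j + 1) ⊆ Reg T g j

/-- FR-6: the other inclusion. -/
def LowerStm : Prop :=
  ∀ (B : Finset P3) (T : Ty) (g : Bool), H2 B T g → ∀ j, Reg T g j ⊆ Region B (j + 1)

/-! ## FR-7: standardization -/

/-- FR-7: an injective integer function has the order of a permutation. -/
def StdStm : Prop :=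
  ∀ (n : ℕ) (f : Fin n → ℤ), Function.Injective f →
    ∃ σ : Equiv.Perm (Fin n), ∀ a b, (σ a < σ b ↔ f a < f b)

/-! ## FR-8, …, FR-11: the codings -/

/-- FR-8: layered permutations. -/
def CodeLStm : Prop :=
  H1 {.p231, .p312} .L false ∧ H1 {.p321, .p231, .p312} .L true ∧
  H2 {.p231, .p312} .L false ∧ H2 {.p321, .p231, .p312} .L true

/-- FR-9: `X` and `Y`. -/
def CodeXYStm : Prop :=
  H1 {.p132, .p312} .X false ∧ H2 {.p132, .p312} .X false ∧
  H1 {.p213, .p231} .Y false ∧ H2 {.p213, .p231} .Y false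

/-- FR-10: `E`. -/
def CodeEStm : Prop := H1 {.p321, .p312} .E false ∧ H2 {.p321, .p312} .E false

/-- FR-11: `F`. -/
def CodeFStm : Prop := H1 {.p321, .p231} .F false ∧ H2 {.p321, .p231} .F false

/-! ## FR-12: complement -/

/-- The complement of a pattern. -/
def P3.c : P3 → P3
  | .p123 => .p321 | .p132 => .p312 | .p213 => .p231
  | .p231 => .p213 | .p312 => .p132 | .p321 => .p123

/-- FR-12: complementation. -/
def CplStm : Prop :=
  (∀ (B : Finset P3) (k : ℕ), Region (B.image P3.c) k = cplSet (Region B k)) ∧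
  ∀ k : ℕ, cplSet {eInc k} = {eDec k}

/-! ## FR-13, …, FR-16: the degenerate classes -/

/-- FR-13: at most one descent. -/
def IncStm : Prop :=
  ∀ B : Finset P3, .p321 ∈ B → .p123 ∉ B → (.p132 ∈ B ∨ .p213 ∈ B) →
    ∀ j, Region B (j + 1) = {eInc (j + 1)}

/-- FR-14: segments, upper bound. -/
def SegUpperStm : Prop :=
  ∀ B : Finset P3, ((.p132 ∈ B ∧ .p231 ∈ B) ∨ (.p213 ∈ B ∧ .p312 ∈ B)) →
    ∀ j, Region B (j + 1) ⊆ segment ℝ (eInc (j + 1)) (eDec (j + 1))

/-- FR-15: segments, lower bound. -/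
def SegLowerStm : Prop :=
  ∀ B : Finset P3, .p123 ∉ B → .p321 ∉ B →
    (.p132 ∉ B ∨ .p213 ∉ B ∨ .p231 ∉ B ∨ .p312 ∉ B) →
    ∀ j, segment ℝ (eInc (j + 1)) (eDec (j + 1)) ⊆ Region B (j + 1)

/-- FR-16: two points. -/
def TwoStm : Prop :=
  ∀ B : Finset P3, .p123 ∉ B → .p321 ∉ B → .p132 ∈ B → .p213 ∈ B → .p231 ∈ B → .p312 ∈ B →
    ∀ j, Region B (j + 1) = {eInc (j + 1), eDec (j + 1)}

/-- FR-17: empty. -/
def EmptyStm : Prop :=
  ∀ B : Finset P3, .p123 ∈ B → .p321 ∈ B → ∀ k, Region B k = ∅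

/-- The target. -/
def Target : Prop :=
  ∀ B : Finset P3, 2 ≤ B.card → ∀ j, Region B (j + 1) = Answer B j

end FeasR
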