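import Mathlib
import Pool.Agent.R666.FR.Stms

/-!
# MP_9c7f60_co, FR-14: the upper bound for the segments
-/

namespace FeasR.P14

open Filter Topology

/-- the pattern at a position is unique -/
theorem occ_unique {k n : ℕ} {π π' : Equiv.Perm (Fin k)} {σ : Equiv.Perm (Fin n)} {i : ℕ}
    (h : OccAt π σ i) (h' : OccAt π' σ i) : π = π' := by
  obtain ⟨_, h⟩ := h
  obtain ⟨_, h'⟩ := h'
  have hiff : ∀ a b, π a < π b ↔ π' a < π' b := fun a b => (h a b).trans (h' a b).symm
  have hm : StrictMono (π.symm.trans π') := by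
    intro x y hxy
    exact (hiff (π.symm x) (π.symm y)).1 (by simpa using hxy)
  let e : Fin k ≃o Fin k :=
    { toEquiv := π.symm.trans π'
      map_rel_iff' := fun {a b} => hm.le_iff_le }
  have hid : e = OrderIso.refl _ := Subsingleton.elim _ _
  apply Equiv.ext
  intro a
  have h2 : e (π a) = π a := by rw [hid]; rfl
  have h3 : e (π a) = π' a := by
    change π' (π.symm (π a)) = π' a
    rw [Equiv.symm_apply_apply]
  rw [← h2, h3]

theorem occ_inc {j n : ℕ} {σ : Equiv.Perm (Fin n)} {i : ℕ} (h : i + (j + 1) ≤ n)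
    (hs : ∀ s (hs : s + 1 < n), i ≤ s → s < i + j → σ ⟨s, by omega⟩ < σ ⟨s + 1, hs⟩) :
    OccAt (1 : Equiv.Perm (Fin (j + 1))) σ i := by
  refine ⟨h, ?_⟩
  have hm : StrictMono (fun a : Fin (j + 1) => σ ⟨i + a, by omega⟩) := by
    rw [Fin.strictMono_iff_lt_succ]
    intro a
    exact hs (i + a) (by have := a.2; omega) (by omega) (by have := a.2; omega)
  intro a b
  exact hm.lt_iff_lt.symm

theorem occ_dec {j n : ℕ} {σ : Equiv.Perm (Fin n)} {i : ℕ} (h : i + (j + 1) ≤ n)
    (hs : ∀ s (hs : s + 1 < n), i ≤ s → s < i + j → σ ⟨s + 1, hs⟩ < σ ⟨s, by omega⟩) :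
    OccAt (Fin.revPerm : Equiv.Perm (Fin (j + 1))) σ i := by
  refine ⟨h, ?_⟩
  have hm : StrictAnti (fun a : Fin (j + 1) => σ ⟨i + a, by omega⟩) := by
    rw [Fin.strictAnti_iff_succ_lt]
    intro a
    exact hs (i + a) (by have := a.2; omega) (by omega) (by have := a.2; omega)
  intro a b
  have h1 : (Fin.revPerm a < Fin.revPerm b) ↔ b < a := by simp
  rw [h1]
  exact hm.lt_iff_gt.symm

theorem inc_occ {j n : ℕ} {σ : Equiv.Perm (Fin n)} {i : ℕ} (hj : 1 ≤ j)
    (h : OccAt (1 : Equiv.Perm (Fin (j + 1))) σ i) :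
    ∃ hn : i + 1 < n, σ ⟨i, by omega⟩ < σ ⟨i + 1, hn⟩ := by
  obtain ⟨h0, h⟩ := h
  refine ⟨by omega, ?_⟩
  exact (h ⟨0, by omega⟩ ⟨1, by omega⟩).1 (by
    change (⟨0, by omega⟩ : Fin (j + 1)) < ⟨1, by omega⟩
    exact Fin.mk_lt_mk.2 (by norm_num))

theorem dec_occ {j n : ℕ} {σ : Equiv.Perm (Fin n)} {i : ℕ} (hj : 1 ≤ j)
    (h : OccAt (Fin.revPerm : Equiv.Perm (Fin (j + 1))) σ i) :
    ∃ hn : i + 1 < n, ¬ (σ ⟨i, by omega⟩ < σ ⟨i + 1, hn⟩) := by
  obtain ⟨h0, h⟩ := h
  refine ⟨by omega, ?_⟩
  have h2 : σ ⟨i + 1, by omega⟩ < σ ⟨i, by omega⟩ := (h ⟨1, by omega⟩ ⟨0, by omega⟩).1 (by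
    rw [Fin.revPerm_apply, Fin.revPerm_apply, Fin.rev_lt_rev]
    exact Fin.mk_lt_mk.2 (by norm_num))
  exact not_lt.2 h2.le

/-- the pattern of the first part -/
def pA (β : Bool) (j : ℕ) : Equiv.Perm (Fin (j + 1)) := if β then 1 else Fin.revPerm

/-- the pattern of the second part -/
def pB (β : Bool) (j : ℕ) : Equiv.Perm (Fin (j + 1)) := if β then Fin.revPerm else 1

/-- ascents and descents of `σ` are separated by the threshold `m` -/
def Thr {n : ℕ} (σ : Equiv.Perm (Fin n)) (m : ℕ) (β : Bool) : Prop :=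
  ∀ s (hs : s + 1 < n), (σ ⟨s, by omega⟩ < σ ⟨s + 1, hs⟩ ↔ (s < m ↔ β = true))

theorem lt_of_not {n : ℕ} {σ : Equiv.Perm (Fin n)} {s : ℕ} (hs : s + 1 < n)
    (h : ¬ (σ ⟨s, by omega⟩ < σ ⟨s + 1, hs⟩)) : σ ⟨s + 1, hs⟩ < σ ⟨s, by omega⟩ := by
  refine lt_of_le_of_ne (not_lt.1 h) ?_
  intro he
  have := σ.injective he
  simp at this

theorem thrA {j n : ℕ} {σ : Equiv.Perm (Fin n)} {m : ℕ} {β : Bool} (hσ : Thr σ m β) {i : ℕ}
    (h : i + (j + 1) ≤ n) (hm : i + j ≤ m) : OccAt (pA β j) σ i := by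
  cases β with
  | true =>
    apply occ_inc h
    intro s hs _ h2
    rw [hσ s hs]
    simp; omega
  | false =>
    apply occ_dec h
    intro s hs _ h2
    apply lt_of_not
    rw [hσ s hs]
    simp; omega

theorem thrB {j n : ℕ} {σ : Equiv.Perm (Fin n)} {m : ℕ} {β : Bool} (hσ : Thr σ m β) {i : ℕ}
    (h : i + (j + 1) ≤ n) (hm : m ≤ i) : OccAt (pB β j) σ i := by
  cases β with
  | true =>
    apply occ_dec h
    intro s hs _ h2
    apply lt_of_not
    rw [hσ s hs]
    simp; omega
  | false =>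
    apply occ_inc h
    intro s hs _ h2
    rw [hσ s hs]
    simp; omega

theorem Athr {j n : ℕ} {σ : Equiv.Perm (Fin n)} {m : ℕ} {β : Bool} (hσ : Thr σ m β) {i : ℕ}
    (hj : 1 ≤ j) (h : OccAt (pA β j) σ i) : i < m := by
  cases β with
  | true =>
    obtain ⟨h1, h2⟩ := inc_occ hj h
    rw [hσ i h1] at h2
    simpa using h2
  | false =>
    obtain ⟨h1, h2⟩ := dec_occ hj h
    rw [hσ i h1] at h2
    simpa using h2

theorem Bthr {j n : ℕ} {σ : Equiv.Perm (Fin n)} {m : ℕ} {β : Bool} (hσ : Thr σ m β) {i : ℕ}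
    (hj : 1 ≤ j) (h : OccAt (pB β j) σ i) : m ≤ i ∧ i < n := by
  cases β with
  | true =>
    obtain ⟨h1, h2⟩ := dec_occ hj h
    rw [hσ i h1] at h2
    refine ⟨by simpa using h2, by omega⟩
  | false =>
    obtain ⟨h1, h2⟩ := inc_occ hj h
    rw [hσ i h1] at h2
    refine ⟨by simpa using h2, by omega⟩

/-- all the counts -/
theorem counts {j n : ℕ} {σ : Equiv.Perm (Fin n)} {m : ℕ} {β : Bool} (hσ : Thr σ m β)
    (hj : 1 ≤ j) (hmn : m ≤ n) :
    (m ≤ cocc (pA β j) σ + j ∧ cocc (pA β j) σ ≤ m) ∧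
    (n ≤ m + cocc (pB β j) σ + j ∧ cocc (pB β j) σ + m ≤ n) ∧
    ∀ π : Equiv.Perm (Fin (j + 1)), π ≠ pA β j → π ≠ pB β j → cocc π σ ≤ j := by
  classical
  refine ⟨⟨?_, ?_⟩, ⟨?_, ?_⟩, ?_⟩
  · have h1 : Finset.range (m - j) ⊆
        (Finset.range (n + 1)).filter (fun i => OccAt (pA β j) σ i) := by
      intro i hi
      rw [Finset.mem_range] at hi
      rw [Finset.mem_filter, Finset.mem_range]
      exact ⟨by omega, thrA hσ (by omega) (by omega)⟩
    have h2 := Finset.card_le_card h1
    rw [Finset.card_range] at h2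
    unfold cocc
    convert (show m ≤ ((Finset.range (n + 1)).filter (fun i => OccAt (pA β j) σ i)).card + j by omega)
  · have h1 : (Finset.range (n + 1)).filter (fun i => OccAt (pA β j) σ i) ⊆ Finset.range m := by
      intro i hi
      rw [Finset.mem_filter] at hi
      rw [Finset.mem_range]
      exact Athr hσ hj hi.2
    have h2 := Finset.card_le_card h1
    rw [Finset.card_range] at h2
    unfold cocc
    convert h2
  · have h1 : Finset.Ico m (n - j) ⊆
        (Finset.range (n + 1)).filter (fun i => OccAt (pB β j) σ i) := by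
      intro i hi
      rw [Finset.mem_Ico] at hi
      rw [Finset.mem_filter, Finset.mem_range]
      exact ⟨by omega, thrB hσ (by omega) (by omega)⟩
    have h2 := Finset.card_le_card h1
    rw [Nat.card_Ico] at h2
    unfold cocc
    convert (show n ≤ m + ((Finset.range (n + 1)).filter
      (fun i => OccAt (pB β j) σ i)).card + j by omega)
  · have h1 : (Finset.range (n + 1)).filter (fun i => OccAt (pB β j) σ i) ⊆ Finset.Ico m n := by
      intro i hi
      rw [Finset.mem_filter] at hi
      rw [Finset.mem_Ico]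
      exact Bthr hσ hj hi.2
    have h2 := Finset.card_le_card h1
    rw [Nat.card_Ico] at h2
    unfold cocc
    convert (show ((Finset.range (n + 1)).filter
      (fun i => OccAt (pB β j) σ i)).card + m ≤ n by omega)
  · intro π hA hB
    have h1 : (Finset.range (n + 1)).filter (fun i => OccAt π σ i) ⊆ Finset.Ico (m - j) m := by
      intro i hi
      rw [Finset.mem_filter] at hi
      obtain ⟨_, hi⟩ := hi
      have hin := hi.1
      rw [Finset.mem_Ico]
      refine ⟨?_, ?_⟩
      · by_contra hc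
        exact hA (occ_unique hi (thrA hσ hin (by omega)))
      · by_contra hc
        exact hB (occ_unique hi (thrB hσ hin (by omega)))
    have h2 := Finset.card_le_card h1
    rw [Nat.card_Ico] at h2
    unfold cocc
    convert (show ((Finset.range (n + 1)).filter (fun i => OccAt π σ i)).card ≤ j by omega)

/-- the case `j = 0` -/
theorem cocc_one {n : ℕ} (π : Equiv.Perm (Fin (0 + 1))) (σ : Equiv.Perm (Fin n)) :
    cocc π σ = n := by
  classical
  have h1 : (Finset.range (n + 1)).filter (fun i => OccAt π σ i) = Finset.range n := by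
    ext i
    rw [Finset.mem_filter, Finset.mem_range, Finset.mem_range]
    constructor
    · rintro ⟨_, h, _⟩; omega
    · intro h
      refine ⟨by omega, by omega, ?_⟩
      intro a b
      have : a = b := by
        apply Fin.ext
        have := a.2
        have := b.2
        omega
      subst this
      simp
  unfold cocc
  have : ((Finset.range (n + 1)).filter (fun i => OccAt π σ i)).card = n := by
    rw [h1, Finset.card_range]
  convert this

theorem one_ne_rev {j : ℕ} (hj : 1 ≤ j) :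
    (1 : Equiv.Perm (Fin (j + 1))) ≠ Fin.revPerm := by
  intro h
  have := congrArg (fun e : Equiv.Perm (Fin (j + 1)) => (e 0 : ℕ)) h
  simp at this
  omega

/-- existence of the threshold from monotonicity -/
theorem exists_thr {n : ℕ} (σ : Equiv.Perm (Fin n)) (β : Bool)
    (h : ∀ s (hs : s + 2 < n), (σ ⟨s, by omega⟩ < σ ⟨s + 1, by omega⟩ ↔ β = false) →
      (σ ⟨s + 1, by omega⟩ < σ ⟨s + 2, hs⟩ ↔ β = false)) :
    ∃ m, m ≤ n ∧ Thr σ m β := by
  classical
  -- `Q s`: from `s` on everything is of the second type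
  let Q : ℕ → Prop := fun s => ∀ hs : s + 1 < n, (σ ⟨s, by omega⟩ < σ ⟨s + 1, hs⟩ ↔ β = false)
  have hQ : ∃ s, Q s := ⟨n, fun hs => by omega⟩
  have hstep : ∀ s, Q s → Q (s + 1) := by
    intro s hs h2
    exact h s h2 (hs (by omega))
  have hge : ∀ s, Nat.find hQ ≤ s → Q s := by
    intro s hs
    induction s, hs using Nat.le_induction with
    | base => exact Nat.find_spec hQ
    | succ s _ ih => exact hstep s ih
  refine ⟨Nat.find hQ, Nat.find_min' hQ (fun hs => by omega), ?_⟩
  intro s hs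
  by_cases hc : s < Nat.find hQ
  · have h1 := Nat.find_min hQ hc
    have h2 : ¬ (σ ⟨s, by omega⟩ < σ ⟨s + 1, hs⟩ ↔ β = false) := by
      intro h3
      exact h1 (fun _ => h3)
    cases β with
    | true =>
      rw [iff_false_right (by simp), not_not] at h2
      exact ⟨fun _ => ⟨fun _ => rfl, fun _ => hc⟩, fun _ => h2⟩
    | false =>
      rw [iff_true_right rfl] at h2
      exact ⟨fun h4 => absurd h4 h2, fun h4 => absurd (h4.1 hc) (by simp)⟩
  · have h1 := hge s (not_lt.1 hc) hs
    rw [h1]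
    cases β with
    | true => simp [hc]
    | false => simp [hc]

theorem main : SegUpperStm := by
  intro B hB j v hv
  obtain ⟨N, σ, hav, hN, hlim⟩ := hv
  -- thresholds
  have hthr : ∀ t, ∃ m β, m ≤ N t ∧ Thr (σ t) m β := by
    intro t
    have hne : ∀ (a b : Fin (N t)), a ≠ b → σ t a < σ t b ∨ σ t b < σ t a := by
      intro a b hab
      rcases lt_trichotomy (σ t a) (σ t b) with h | h | h
      · exact Or.inl h
      · exact absurd ((σ t).injective h) hab
      · exact Or.inr h
    rcases hB with ⟨h1, h2⟩ | ⟨h1, h2⟩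
    · -- no peaks: descents, then ascents
      obtain ⟨m, hm, hm2⟩ := exists_thr (σ t) false (by
        intro s hs hasc
        simp only [iff_true] at hasc ⊢
        by_contra hcon
        have hdes := lt_of_not (σ := σ t) (s := s + 1) hs hcon
        rcases hne ⟨s, by omega⟩ ⟨s + 2, hs⟩ (by simp) with h | h
        · exact hav t _ h1 ⟨s, by omega⟩ ⟨s + 1, by omega⟩ ⟨s + 2, hs⟩ (by simp) (by simp)
            ⟨h, hdes⟩
        · exact hav t _ h2 ⟨s, by omega⟩ ⟨s + 1, by omega⟩ ⟨s + 2, hs⟩ (by simp) (by simp)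
            ⟨h, hasc⟩)
      exact ⟨m, false, hm, hm2⟩
    · obtain ⟨m, hm, hm2⟩ := exists_thr (σ t) true (by
        intro s hs hdes
        simp only [Bool.true_eq_false, iff_false] at hdes ⊢
        have hdes' := lt_of_not (σ := σ t) (s := s) (by omega) hdes
        intro hasc
        rcases hne ⟨s, by omega⟩ ⟨s + 2, hs⟩ (by simp) with h | h
        · exact hav t _ h1 ⟨s, by omega⟩ ⟨s + 1, by omega⟩ ⟨s + 2, hs⟩ (by simp) (by simp)
            ⟨hdes', h⟩
        · exact hav t _ h2 ⟨s, by omega⟩ ⟨s + 1, by omega⟩ ⟨s + 2, hs⟩ (by simp) (by simp)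
            ⟨hasc, h⟩)
      exact ⟨m, true, hm, hm2⟩
  have hNR : Tendsto (fun m => (N m : ℝ)) atTop atTop := tendsto_natCast_atTop_atTop.comp hN
  have hpos : ∀ᶠ m in atTop, (0 : ℝ) < N m := hNR.eventually_gt_atTop 0
  rcases Nat.eq_zero_or_pos j with hj | hj
  · subst hj
    have h1 : ∀ π, v π = 1 := by
      intro π
      apply tendsto_nhds_unique (hlim π)
      apply tendsto_const_nhds.congr'
      filter_upwards [hpos] with m hm
      rw [cocc_one, div_self hm.ne']
    have h2 : v = eInc (0 + 1) := by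
      funext π
      have : π = 1 := by
        apply Equiv.ext
        intro a
        apply Fin.ext
        have := (π a).2
        have := ((1 : Equiv.Perm (Fin (0 + 1))) a).2
        omega
      rw [h1, this]
      simp [eInc]
    rw [h2]
    exact left_mem_segment _ _ _
  · -- counts
    have hcount : ∀ t, (N t ≤ cocc (1 : Equiv.Perm (Fin (j + 1))) (σ t)
          + cocc (Fin.revPerm : Equiv.Perm (Fin (j + 1))) (σ t) + 2 * j ∧
        cocc (1 : Equiv.Perm (Fin (j + 1))) (σ t)
          + cocc (Fin.revPerm : Equiv.Perm (Fin (j + 1))) (σ t) ≤ N t) ∧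
        ∀ π : Equiv.Perm (Fin (j + 1)), π ≠ 1 → π ≠ Fin.revPerm → cocc π (σ t) ≤ j := by
      intro t
      obtain ⟨m, β, hm, hT⟩ := hthr t
      obtain ⟨⟨a1, a2⟩, ⟨b1, b2⟩, c⟩ := counts (j := j) hT hj hm
      cases β with
      | true =>
        simp only [pA, pB, if_true] at a1 a2 b1 b2 c
        exact ⟨⟨by omega, by omega⟩, c⟩
      | false =>
        simp only [pA, pB, Bool.false_eq_true, if_false] at a1 a2 b1 b2 c
        exact ⟨⟨by omega, by omega⟩, fun π h1 h2 => c π h2 h1⟩
    have hinv : Tendsto (fun m => (2 * j : ℝ) / (N m : ℝ)) atTop (𝓝 0) :=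
      tendsto_const_nhds.div_atTop hNR
    have hinv1 : Tendsto (fun m => (j : ℝ) / (N m : ℝ)) atTop (𝓝 0) :=
      tendsto_const_nhds.div_atTop hNR
    have hsum : v 1 + v Fin.revPerm = 1 := by
      have hl := (hlim 1).add (hlim Fin.revPerm)
      apply tendsto_nhds_unique hl
      have hlow : Tendsto (fun m => 1 - (2 * j : ℝ) / (N m : ℝ)) atTop (𝓝 1) := by
        simpa using tendsto_const_nhds.sub hinv
      apply tendsto_of_tendsto_of_tendsto_of_le_of_le' hlow tendsto_const_nhds
      · filter_upwards [hpos] with m hm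
        rw [← add_div, sub_le_iff_le_add, ← add_div, le_div_iff₀ hm, one_mul]
        have := (hcount m).1.1
        exact_mod_cast this
      · filter_upwards [hpos] with m hm
        rw [← add_div, div_le_one hm]
        have := (hcount m).1.2
        exact_mod_cast this
    have hother : ∀ π : Equiv.Perm (Fin (j + 1)), π ≠ 1 → π ≠ Fin.revPerm → v π = 0 := by
      intro π h1 h2
      apply tendsto_nhds_unique (hlim π)
      apply tendsto_of_tendsto_of_tendsto_of_le_of_le' tendsto_const_nhds hinv1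
      · exact Eventually.of_forall (fun m => by positivity)
      · filter_upwards [hpos] with m hm
        apply div_le_div_of_nonneg_right _ hm.le
        have := (hcount m).2 π h1 h2
        exact_mod_cast this
    have hnn : ∀ π, 0 ≤ v π := fun π => ge_of_tendsto' (hlim π) (fun m => by positivity)
    refine ⟨v 1, v Fin.revPerm, hnn _, hnn _, hsum, ?_⟩
    funext π
    simp only [eInc, eDec, Pi.add_apply, Pi.smul_apply, smul_eq_mul, Pi.single_apply]
    by_cases h1 : π = 1
    · subst h1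
      rw [if_pos rfl, if_neg (one_ne_rev hj)]
      ring
    · by_cases h2 : π = Fin.revPerm
      · subst h2
        rw [if_neg h1, if_pos rfl]
        ring
      · rw [if_neg h1, if_neg h2, hother π h1 h2]
        ring

end FeasR.P14
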