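import Pool.Agent.R666.FR.Stms

/-!
MP_9c7f60_co, piece FR-16: the class which avoids 132, 213, 231 and 312.
-/

namespace FeasR.P16

open Filter Topology FeasR

theorem mono_eq_one {n : ℕ} (σ : Equiv.Perm (Fin n)) (h : StrictMono σ) : σ = 1 := by
  apply Equiv.ext
  intro x
  have h2 : (σ : Fin n → Fin n) = id :=
    (StrictMono.range_inj h strictMono_id).1 (by simp [σ.surjective.range_eq])
  exact congrFun h2 x

theorem anti_eq_rev {n : ℕ} (σ : Equiv.Perm (Fin n)) (h : StrictAnti σ) : σ = Fin.revPerm := by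
  have h2 : StrictMono (σ.trans Fin.revPerm) := by
    intro a b hab
    simp only [Equiv.trans_apply, Fin.revPerm_apply]
    rw [Fin.rev_lt_rev]
    exact h hab
  have h3 := mono_eq_one _ h2
  apply Equiv.ext
  intro x
  have h4 := Equiv.congr_fun h3 x
  simp only [Equiv.trans_apply, Fin.revPerm_apply, Equiv.Perm.one_apply] at h4
  rw [Fin.revPerm_apply, ← h4, Fin.rev_rev, h4]

theorem occAt_one_iff {k n : ℕ} (π : Equiv.Perm (Fin k)) (i : ℕ) :
    OccAt π (1 : Equiv.Perm (Fin n)) i ↔ i + k ≤ n ∧ π = 1 := by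
  constructor
  · rintro ⟨h, H⟩
    refine ⟨h, mono_eq_one π ?_⟩
    intro a b hab
    rw [H a b]
    simp only [Equiv.Perm.one_apply, Fin.mk_lt_mk]
    have := Fin.lt_def.1 hab
    omega
  · rintro ⟨h, rfl⟩
    refine ⟨h, fun a b => ?_⟩
    simp only [Equiv.Perm.one_apply, Fin.lt_def]
    omega

theorem occAt_rev_iff {k n : ℕ} (π : Equiv.Perm (Fin k)) (i : ℕ) :
    OccAt π (Fin.revPerm : Equiv.Perm (Fin n)) i ↔ i + k ≤ n ∧ π = Fin.revPerm := by
  constructor
  · rintro ⟨h, H⟩
    refine ⟨h, anti_eq_rev π ?_⟩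
    intro a b hab
    rw [H b a]
    simp only [Fin.revPerm_apply, Fin.rev_lt_rev, Fin.mk_lt_mk]
    have := Fin.lt_def.1 hab
    omega
  · rintro ⟨h, rfl⟩
    refine ⟨h, fun a b => ?_⟩
    have ha := a.2
    have hb := b.2
    simp only [Fin.revPerm_apply, Fin.lt_def, Fin.val_rev]
    omega

theorem cocc_one {j n : ℕ} (π : Equiv.Perm (Fin (j + 1))) :
    cocc π (1 : Equiv.Perm (Fin n)) = if π = 1 then n - j else 0 := by
  classical
  unfold cocc
  split_ifs with h
  · rw [← Finset.card_range (n - j)]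
    congr 1
    ext i
    simp only [Finset.mem_filter, Finset.mem_range, occAt_one_iff]
    constructor
    · rintro ⟨_, h2, _⟩; omega
    · intro h2; exact ⟨by omega, by omega, h⟩
  · rw [Finset.card_eq_zero, Finset.filter_eq_empty_iff]
    intro i _ hi
    exact h ((occAt_one_iff π i).1 hi).2

theorem cocc_rev {j n : ℕ} (π : Equiv.Perm (Fin (j + 1))) :
    cocc π (Fin.revPerm : Equiv.Perm (Fin n)) = if π = Fin.revPerm then n - j else 0 := by
  classical
  unfold cocc
  split_ifs with h
  · rw [← Finset.card_range (n - j)]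
    congr 1
    ext i
    simp only [Finset.mem_filter, Finset.mem_range, occAt_rev_iff]
    constructor
    · rintro ⟨_, h2, _⟩; omega
    · intro h2; exact ⟨by omega, by omega, h⟩
  · rw [Finset.card_eq_zero, Finset.filter_eq_empty_iff]
    intro i _ hi
    exact h ((occAt_rev_iff π i).1 hi).2

theorem tendsto_ratio (j : ℕ) (N : ℕ → ℕ) (hN : Tendsto N atTop atTop) :
    Tendsto (fun m => ((N m - j : ℕ) : ℝ) / (N m : ℝ)) atTop (𝓝 1) := by
  have h1 : Tendsto (fun n : ℕ => ((n - j : ℕ) : ℝ) / (n : ℝ)) atTop (𝓝 1) := by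
    have h2 : Tendsto (fun n : ℕ => 1 - (j : ℝ) / (n : ℝ)) atTop (𝓝 (1 - 0)) :=
      tendsto_const_nhds.sub (tendsto_const_div_atTop_nhds_zero_nat _)
    rw [sub_zero] at h2
    refine h2.congr' ?_
    filter_upwards [eventually_ge_atTop (j + 1)] with n hn
    have hn0 : (0 : ℝ) < n := by
      have : 0 < n := by omega
      exact_mod_cast this
    rw [Nat.cast_sub (by omega)]
    field_simp
  exact h1.comp hN

theorem tendsto_one (j : ℕ) (N : ℕ → ℕ) (hN : Tendsto N atTop atTop)
    (π : Equiv.Perm (Fin (j + 1))) :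
    Tendsto (fun m => (cocc π (1 : Equiv.Perm (Fin (N m))) : ℝ) / (N m : ℝ)) atTop
      (𝓝 (eInc (j + 1) π)) := by
  simp only [cocc_one, eInc]
  by_cases h : π = 1
  · subst h
    simpa using tendsto_ratio j N hN
  · simp [h]

theorem tendsto_rev (j : ℕ) (N : ℕ → ℕ) (hN : Tendsto N atTop atTop)
    (π : Equiv.Perm (Fin (j + 1))) :
    Tendsto (fun m => (cocc π (Fin.revPerm : Equiv.Perm (Fin (N m))) : ℝ) / (N m : ℝ)) atTop
      (𝓝 (eDec (j + 1) π)) := by
  simp only [cocc_rev, eDec]
  by_cases h : π = Fin.revPerm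
  · subst h
    simpa using tendsto_ratio j N hN
  · simp [h]

/-- the permutations of the class are monotone -/
theorem class_eq {B : Finset P3} (h132 : .p132 ∈ B) (h213 : .p213 ∈ B) (h231 : .p231 ∈ B)
    (h312 : .p312 ∈ B) {n : ℕ} (σ : Equiv.Perm (Fin n)) (hσ : Avoids B σ) :
    σ = 1 ∨ σ = Fin.revPerm := by
  -- all three pairs of a triple have the same kind
  have key : ∀ i j l : Fin n, i < j → j < l →
      ((σ i < σ j ↔ σ i < σ l) ∧ (σ j < σ l ↔ σ i < σ l)) := by
    intro i j l hij hjl
    have a1 := hσ _ h132 i j l hij hjl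
    have a2 := hσ _ h213 i j l hij hjl
    have a3 := hσ _ h231 i j l hij hjl
    have a4 := hσ _ h312 i j l hij hjl
    simp only [P3.Rel] at a1 a2 a3 a4
    have n1 : σ i ≠ σ j := fun h => hij.ne (σ.injective h)
    have n2 : σ j ≠ σ l := fun h => hjl.ne (σ.injective h)
    have n3 : σ i ≠ σ l := fun h => (hij.trans hjl).ne (σ.injective h)
    simp only [Fin.lt_def, ne_eq, Fin.ext_iff] at *
    omega
  rcases n with _ | n
  · left; apply Equiv.ext; intro x; exact x.elim0
  -- compare with the pair `0, last`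
  have cmp : ∀ a b : Fin (n + 1), a < b → (σ a < σ b ↔ σ 0 < σ (Fin.last n)) := by
    intro a b hab
    have s1 : σ a < σ b ↔ σ 0 < σ b := by
      rcases eq_or_ne a 0 with rfl | h0
      · rfl
      · exact (key 0 a b (Fin.pos_iff_ne_zero.2 h0) hab).2
    have s2 : σ 0 < σ b ↔ σ 0 < σ (Fin.last n) := by
      rcases eq_or_ne b (Fin.last n) with rfl | h0
      · rfl
      · exact (key 0 b (Fin.last n) (lt_of_le_of_lt (Fin.zero_le _) hab)
          (Fin.lt_last_iff_ne_last.2 h0)).1
    exact s1.trans s2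
  by_cases h : σ 0 < σ (Fin.last n)
  · left
    exact mono_eq_one σ fun a b hab => (cmp a b hab).2 h
  · right
    apply anti_eq_rev σ
    intro a b hab
    have h1 : ¬ σ a < σ b := fun h2 => h ((cmp a b hab).1 h2)
    have h2 : σ a ≠ σ b := fun h3 => hab.ne (σ.injective h3)
    exact lt_of_le_of_ne (not_lt.1 h1) h2.symm

theorem main : TwoStm := by
  intro B h123 h321 h132 h213 h231 h312 j
  ext v
  simp only [Set.mem_insert_iff, Set.mem_singleton_iff]
  constructor
  · rintro ⟨N, σ, hσ, hN, hv⟩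
    have hcl := fun m => class_eq h132 h213 h231 h312 (σ m) (hσ m)
    by_cases hf : ∃ᶠ m in atTop, σ m = 1
    · left
      funext π
      by_contra hne
      have hd := (hv π).sub (tendsto_one j N hN π)
      have hev := hd.eventually_ne (b₂ := 0) (sub_ne_zero.2 hne)
      obtain ⟨m, hm1, hm2⟩ := (hf.and_eventually hev).exists
      apply hm2
      rw [hm1, sub_self]
    · right
      rw [not_frequently] at hf
      funext π
      refine tendsto_nhds_unique (hv π) ?_
      refine (tendsto_rev j N hN π).congr' ?_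
      filter_upwards [hf] with m hm
      rcases hcl m with h | h
      · exact absurd h hm
      · rw [h]
  · have hB : ∀ p ∈ B, p = .p132 ∨ p = .p213 ∨ p = .p231 ∨ p = .p312 := by
      intro p hp
      cases p <;> simp_all
    rintro (rfl | rfl)
    · refine ⟨fun m => m, fun m => 1, ?_, tendsto_id, fun π => tendsto_one j _ tendsto_id π⟩
      intro m p hp i j l hij hjl
      rcases hB p hp with rfl | rfl | rfl | rfl <;>
        · simp only [P3.Rel, Equiv.Perm.one_apply, Fin.lt_def] at *
          omega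
    · refine ⟨fun m => m, fun m => Fin.revPerm, ?_, tendsto_id,
        fun π => tendsto_rev j _ tendsto_id π⟩
      intro m p hp i j l hij hjl
      rcases hB p hp with rfl | rfl | rfl | rfl <;>
        · have hi := i.2
          have hj := j.2
          have hl := l.2
          simp only [P3.Rel, Fin.revPerm_apply, Fin.lt_def, Fin.val_rev] at *
          omega

end FeasR.P16
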