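import Pool.Agent.R666.FR.Stms

namespace FeasR.P17

open Filter Topology

theorem five (x : Fin 5 → ℤ) (hx : Function.Injective x)
    (h1 : ∀ i j l : Fin 5, i < j → j < l → ¬ (x i < x j ∧ x j < x l))
    (h2 : ∀ i j l : Fin 5, i < j → j < l → ¬ (x l < x j ∧ x j < x i)) : False := by
  have n01 : x 0 ≠ x 1 := fun h => by simpa using hx h
  have n02 : x 0 ≠ x 2 := fun h => by simpa using hx h
  have n03 : x 0 ≠ x 3 := fun h => by simpa using hx h
  have n04 : x 0 ≠ x 4 := fun h => by simpa using hx h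
  have n12 : x 1 ≠ x 2 := fun h => by simpa using hx h
  have n13 : x 1 ≠ x 3 := fun h => by simpa using hx h
  have n14 : x 1 ≠ x 4 := fun h => by simpa using hx h
  have n23 : x 2 ≠ x 3 := fun h => by simpa using hx h
  have n24 : x 2 ≠ x 4 := fun h => by simpa using hx h
  have n34 : x 3 ≠ x 4 := fun h => by simpa using hx h
  have a012 := h1 0 1 2 (by decide) (by decide)
  have a013 := h1 0 1 3 (by decide) (by decide)
  have a014 := h1 0 1 4 (by decide) (by decide)
  have a023 := h1 0 2 3 (by decide) (by decide)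
  have a024 := h1 0 2 4 (by decide) (by decide)
  have a034 := h1 0 3 4 (by decide) (by decide)
  have a123 := h1 1 2 3 (by decide) (by decide)
  have a124 := h1 1 2 4 (by decide) (by decide)
  have a134 := h1 1 3 4 (by decide) (by decide)
  have a234 := h1 2 3 4 (by decide) (by decide)
  have b012 := h2 0 1 2 (by decide) (by decide)
  have b013 := h2 0 1 3 (by decide) (by decide)
  have b014 := h2 0 1 4 (by decide) (by decide)
  have b023 := h2 0 2 3 (by decide) (by decide)
  have b024 := h2 0 2 4 (by decide) (by decide)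
  have b034 := h2 0 3 4 (by decide) (by decide)
  have b123 := h2 1 2 3 (by decide) (by decide)
  have b124 := h2 1 2 4 (by decide) (by decide)
  have b134 := h2 1 3 4 (by decide) (by decide)
  have b234 := h2 2 3 4 (by decide) (by decide)
  rcases lt_or_gt_of_ne n01 with h01 | h01 <;> rcases lt_or_gt_of_ne n12 with h12 | h12 <;>
    rcases lt_or_gt_of_ne n23 with h23 | h23 <;> rcases lt_or_gt_of_ne n34 with h34 | h34 <;>
    first
    | exact a012 ⟨h01, h12⟩
    | exact b012 ⟨h12, h01⟩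
    | exact a123 ⟨h12, h23⟩
    | exact b123 ⟨h23, h12⟩
    | exact a234 ⟨h23, h34⟩
    | exact b234 ⟨h34, h23⟩
    | (rcases lt_or_gt_of_ne n02 with h02 | h02 <;> rcases lt_or_gt_of_ne n13 with h13 | h13 <;>
        rcases lt_or_gt_of_ne n24 with h24 | h24 <;> rcases lt_or_gt_of_ne n04 with h04 | h04 <;>
        rcases lt_or_gt_of_ne n03 with h03 | h03 <;> rcases lt_or_gt_of_ne n14 with h14 | h14 <;>
        first
        | exact a013 ⟨h01, h13⟩
        | exact a014 ⟨h01, h14⟩
        | exact a023 ⟨h02, h23⟩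
        | exact a024 ⟨h02, h24⟩
        | exact a034 ⟨h03, h34⟩
        | exact a124 ⟨h12, h24⟩
        | exact a134 ⟨h13, h34⟩
        | exact b013 ⟨h13, h01⟩
        | exact b014 ⟨h14, h01⟩
        | exact b023 ⟨h23, h02⟩
        | exact b024 ⟨h24, h02⟩
        | exact b034 ⟨h34, h03⟩
        | exact b124 ⟨h24, h12⟩
        | exact b134 ⟨h34, h13⟩)


theorem main : EmptyStm := by
  intro B h123 h321 k
  ext v
  simp only [Set.mem_empty_iff_false, iff_false]
  rintro ⟨N, σ, hav, hN, -⟩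
  obtain ⟨m, hm⟩ := (hN.eventually_ge_atTop 5).exists
  let x : Fin 5 → ℤ := fun t => ((σ m ⟨t, by omega⟩ : Fin (N m)) : ℕ)
  have hx : Function.Injective x := by
    intro a b hab
    have h1 : ((σ m ⟨a, by omega⟩ : Fin (N m)) : ℕ) = ((σ m ⟨b, by omega⟩ : Fin (N m)) : ℕ) :=
      Int.ofNat.inj hab
    have h2 := (σ m).injective (Fin.ext h1)
    exact Fin.ext (by simpa using congrArg Fin.val h2)
  have hlt : ∀ a b : Fin 5, x a < x b ↔ σ m ⟨a, by omega⟩ < σ m ⟨b, by omega⟩ := by
    intro a b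
    show ((((σ m ⟨a, by omega⟩ : Fin (N m)) : ℕ)) : ℤ) < (((σ m ⟨b, by omega⟩ : Fin (N m)) : ℕ) : ℤ) ↔ _
    rw [Nat.cast_lt, Fin.lt_def]
  refine five x hx ?_ ?_
  · rintro i j l hij hjl ⟨h1, h2⟩
    exact hav m _ h123 ⟨i, by omega⟩ ⟨j, by omega⟩ ⟨l, by omega⟩ hij hjl
      ⟨(hlt i j).mp h1, (hlt j l).mp h2⟩
  · rintro i j l hij hjl ⟨h1, h2⟩
    exact hav m _ h321 ⟨i, by omega⟩ ⟨j, by omega⟩ ⟨l, by omega⟩ hij hjl
      ⟨(hlt l j).mp h1, (hlt j i).mp h2⟩

end FeasR.P17
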