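import Pool.Agent.R666.FR.Stms

/-!
# FR-2 (MP_9c7f60_co): a periodic word has its window frequencies
-/

namespace FeasR.P2

open Filter Topology

/-- counting a periodic predicate -/
theorem count_per (P : ℕ → Prop) [DecidablePred P] (L : ℕ) (hP : ∀ i, P (i + L) ↔ P i) (N : ℕ) :
    Nat.count P (N + L) = Nat.count P N + Nat.count P L := by
  rw [Nat.count_add']
  congr 2
  funext k
  exact propext (hP k)

theorem key (P : ℕ → Prop) [DecidablePred P] (L : ℕ) (hL : 0 < L) (hP : ∀ i, P (i + L) ↔ P i) :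
    ∀ N : ℕ, |(L : ℝ) * (Nat.count P N : ℝ) - (N : ℝ) * (Nat.count P L : ℝ)| ≤ (L : ℝ) * L := by
  intro N
  induction N using Nat.strong_induction_on with
  | _ N ih =>
    by_cases h : N < L
    · have h1 : (Nat.count P N : ℝ) ≤ (L : ℝ) := by
        exact_mod_cast (Nat.count_le (p := P) (n := N)).trans h.le
      have h2 : (Nat.count P L : ℝ) ≤ (L : ℝ) := by
        exact_mod_cast Nat.count_le (p := P) (n := L)
      have h3 : (N : ℝ) ≤ (L : ℝ) := by exact_mod_cast h.le
      have h4 : (0 : ℝ) ≤ (Nat.count P N : ℝ) := Nat.cast_nonneg _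
      have h5 : (0 : ℝ) ≤ (Nat.count P L : ℝ) := Nat.cast_nonneg _
      have h6 : (0 : ℝ) ≤ (N : ℝ) := Nat.cast_nonneg _
      have h7 : (0 : ℝ) ≤ (L : ℝ) := Nat.cast_nonneg _
      rw [abs_le]
      constructor
      · have e1 : (N : ℝ) * (Nat.count P L : ℝ) ≤ L * L := mul_le_mul h3 h2 h5 h7
        have e2 : 0 ≤ (L : ℝ) * (Nat.count P N : ℝ) := mul_nonneg h7 h4
        linarith
      · have e1 : (L : ℝ) * (Nat.count P N : ℝ) ≤ L * L := mul_le_mul_of_nonneg_left h1 h7
        have e2 : 0 ≤ (N : ℝ) * (Nat.count P L : ℝ) := mul_nonneg h6 h5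
        linarith
    · obtain ⟨M, rfl⟩ : ∃ M, N = M + L := ⟨N - L, by omega⟩
      have h1 := ih M (by omega)
      rw [count_per P L hP M]
      push_cast
      have e : (L : ℝ) * ((Nat.count P M : ℝ) + (Nat.count P L : ℝ)) -
          ((M : ℝ) + (L : ℝ)) * (Nat.count P L : ℝ) =
          (L : ℝ) * (Nat.count P M : ℝ) - (M : ℝ) * (Nat.count P L : ℝ) := by ring
      rw [e]
      exact h1

theorem main : PeriodicStm := by
  intro j L p hL hp u
  have hper : ∀ i, (win j p (i + L) = u) ↔ (win j p i = u) := by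
    intro i
    have : win j p (i + L) = win j p i := by
      funext t
      show p (i + L + (t : ℕ)) = p (i + t)
      rw [show i + L + (t : ℕ) = (i + t) + L by ring, hp]
    rw [this]
  have hL' : (0 : ℝ) < (L : ℝ) := by exact_mod_cast hL
  set c : ℝ := (Nat.count (fun i => win j p i = u) L : ℝ) with hc
  have hc0 : 0 ≤ c := Nat.cast_nonneg _
  have hcnt : ∀ n, (cnt j p n u : ℝ) = (Nat.count (fun i => win j p i = u) (n - j) : ℝ) := by
    intro n
    unfold cnt
    rw [Nat.count_eq_card_filter_range]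
  have hfreq : freq j L p u = c / L := by
    unfold freq
    rw [hc, Nat.count_eq_card_filter_range]
  rw [hfreq]
  rw [← tendsto_sub_nhds_zero_iff]
  refine squeeze_zero_norm' (a := fun n : ℕ => (((j : ℝ) * c + L * L) / L) / (n : ℝ)) ?_
    (tendsto_const_div_atTop_nhds_zero_nat _)
  filter_upwards [eventually_ge_atTop (j + 1)] with n hn
  have hn0 : (0 : ℝ) < (n : ℝ) := by exact_mod_cast (by omega : 0 < n)
  have hk := key (fun i => win j p i = u) L hL hper (n - j)
  rw [Nat.cast_sub (by omega : j ≤ n)] at hk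
  rw [hcnt n, Real.norm_eq_abs]
  set s : ℝ := (Nat.count (fun i => win j p i = u) (n - j) : ℝ) with hs
  have e : s / n - c / L = (L * s - n * c) / (L * n) := by
    field_simp
  rw [e, abs_div, abs_of_pos (mul_pos hL' hn0), div_div, div_le_div_iff_of_pos_right (by positivity)]
  have h2 : |L * s - n * c| ≤ |L * s - ((n : ℝ) - j) * c| + |(j : ℝ) * c| := by
    have : L * s - n * c = (L * s - ((n : ℝ) - j) * c) - (j : ℝ) * c := by ring
    rw [this]
    exact abs_sub _ _
  rw [abs_of_nonneg (mul_nonneg (Nat.cast_nonneg j) hc0)] at h2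
  linarith

end FeasR.P2
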