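import Pool.Agent.R666.FR.Stms

/-!
# Project FR (MP_9c7f60_co), piece 3: the approximable vectors form a convex set
-/

set_option autoImplicit false

namespace FeasR.P3

open Filter Topology

/-- concatenation of the first `m` letters of `w1`, a letter `false`, and `w2` -/
def cat (m : ℕ) (w1 w2 : ℕ → Bool) (t : ℕ) : Bool :=
  if t < m then w1 t else if t = m then false else w2 (t - m - 1)

theorem cat_gold {g : Bool} {m : ℕ} {w1 w2 : ℕ → Bool} (h1 : Gold g w1) (h2 : Gold g w2) :
    Gold g (cat m w1 w2) := by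
  intro hg t ht
  obtain ⟨ha, hb⟩ := ht
  unfold cat at ha hb
  by_cases c1 : t + 1 < m
  · rw [if_pos (by omega)] at ha
    rw [if_pos c1] at hb
    exact h1 hg t ⟨ha, hb⟩
  · by_cases c2 : t + 1 = m
    · rw [if_neg c1, if_pos c2] at hb
      exact absurd hb (by simp)
    · by_cases c3 : t = m
      · rw [if_neg (by omega), if_pos c3] at ha
        exact absurd ha (by simp)
      · rw [if_neg (by omega), if_neg c3] at ha
        rw [if_neg (by omega), if_neg (by omega)] at hb
        have e : t + 1 - m - 1 = (t - m - 1) + 1 := by omega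
        rw [e] at hb
        exact h2 hg _ ⟨ha, hb⟩

theorem win_left (j m : ℕ) (w1 w2 : ℕ → Bool) (i : ℕ) (h : i < m - j) :
    win j (cat m w1 w2) i = win j w1 i := by
  funext t
  have ht := t.isLt
  unfold win cat
  rw [if_pos (by omega)]

theorem win_right (j m : ℕ) (w1 w2 : ℕ → Bool) (i : ℕ) :
    win j (cat m w1 w2) (i + (m + 1)) = win j w2 i := by
  funext t
  unfold win cat
  rw [if_neg (by omega), if_neg (by omega)]
  congr 1
  omega

theorem cnt_cat (j n m : ℕ) (w1 w2 : ℕ → Bool) (u : Fin (j + 1) → Bool) (hm : m ≤ n) :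
    cnt j w1 m u + cnt j w2 (n - m - 1) u ≤ cnt j (cat m w1 w2) n u ∧
    cnt j (cat m w1 w2) n u ≤ cnt j w1 m u + cnt j w2 (n - m - 1) u + (j + 1) := by
  classical
  set W := cat m w1 w2 with hW
  set S := (Finset.range (n - j)).filter (fun i => win j W i = u) with hS
  set S1 := (Finset.range (m - j)).filter (fun i => win j w1 i = u) with hS1
  set S2 := (Finset.range (n - m - 1 - j)).filter (fun i => win j w2 i = u) with hS2
  have hinj : Function.Injective (fun i : ℕ => i + (m + 1)) := fun a b h => by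
    simpa using h
  have hc2 : (S2.image (fun i => i + (m + 1))).card = S2.card :=
    Finset.card_image_of_injective _ hinj
  have hsub1 : S1 ∪ S2.image (fun i => i + (m + 1)) ⊆ S := by
    intro i hi
    rw [Finset.mem_union, Finset.mem_image] at hi
    rcases hi with hi | ⟨i', hi', rfl⟩
    · rw [hS1, Finset.mem_filter, Finset.mem_range] at hi
      rw [hS, Finset.mem_filter, Finset.mem_range]
      refine ⟨by omega, ?_⟩
      rw [hW, win_left j m w1 w2 i hi.1]
      exact hi.2
    · rw [hS2, Finset.mem_filter, Finset.mem_range] at hi'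
      rw [hS, Finset.mem_filter, Finset.mem_range]
      refine ⟨by omega, ?_⟩
      rw [hW, win_right]
      exact hi'.2
  have hdisj : Disjoint S1 (S2.image (fun i => i + (m + 1))) := by
    rw [Finset.disjoint_left]
    intro i hi hi2
    rw [Finset.mem_image] at hi2
    obtain ⟨i', _, rfl⟩ := hi2
    rw [hS1, Finset.mem_filter, Finset.mem_range] at hi
    omega
  have hsub2 : S ⊆ (S1 ∪ S2.image (fun i => i + (m + 1))) ∪ Finset.Ico (m - j) (m + 1) := by
    intro i hi
    rw [hS, Finset.mem_filter, Finset.mem_range] at hi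
    rw [Finset.mem_union, Finset.mem_union, Finset.mem_image, Finset.mem_Ico]
    by_cases c1 : i < m - j
    · left; left
      rw [hS1, Finset.mem_filter, Finset.mem_range]
      refine ⟨c1, ?_⟩
      rw [← win_left j m w1 w2 i c1]
      exact hi.2
    · by_cases c2 : i < m + 1
      · right
        exact ⟨by omega, c2⟩
      · left; right
        refine ⟨i - (m + 1), ?_, by omega⟩
        rw [hS2, Finset.mem_filter, Finset.mem_range]
        refine ⟨by omega, ?_⟩
        rw [← win_right j m w1 w2]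
        have e : i - (m + 1) + (m + 1) = i := by omega
        rw [e]
        exact hi.2
  constructor
  · have := Finset.card_le_card hsub1
    rw [Finset.card_union_of_disjoint hdisj, hc2] at this
    exact this
  · have h1 := Finset.card_le_card hsub2
    have h2 := Finset.card_union_le (S1 ∪ S2.image (fun i => i + (m + 1)))
      (Finset.Ico (m - j) (m + 1))
    have h3 := Finset.card_union_le S1 (S2.image (fun i => i + (m + 1)))
    rw [hc2] at h3
    rw [Nat.card_Ico] at h2
    show S.card ≤ S1.card + S2.card + (j + 1)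
    omega

theorem ratio_lim {c : ℕ → ℕ} {m : ℕ → ℕ} {x a : ℝ} (hm : Tendsto m atTop atTop)
    (hc : Tendsto (fun n : ℕ => (c n : ℝ) / (n : ℝ)) atTop (𝓝 x))
    (ha : Tendsto (fun n : ℕ => (m n : ℝ) / (n : ℝ)) atTop (𝓝 a)) :
    Tendsto (fun n : ℕ => (c (m n) : ℝ) / (n : ℝ)) atTop (𝓝 (a * x)) := by
  have h1 := (hc.comp hm).mul ha
  rw [mul_comm a x]
  refine h1.congr' ?_
  filter_upwards [hm.eventually_ge_atTop 1] with n hn
  have hmn : (m n : ℝ) ≠ 0 := by
    have : 0 < m n := hn
    positivity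
  show (c (m n) : ℝ) / (m n : ℝ) * ((m n : ℝ) / (n : ℝ)) = _
  rw [div_mul_div_cancel₀ hmn]

theorem main : ConvexStm := by
  intro g j μ1 h1 μ2 h2 a b ha hb hab
  rcases ha.eq_or_lt with ha0 | ha0
  · rw [← ha0, zero_add] at hab
    rw [← ha0, hab, zero_smul, zero_add, one_smul]
    exact h2
  rcases hb.eq_or_lt with hb0 | hb0
  · rw [← hb0, add_zero] at hab
    rw [← hb0, hab, zero_smul, add_zero, one_smul]
    exact h1
  obtain ⟨w1, hg1, hl1⟩ := h1
  obtain ⟨w2, hg2, hl2⟩ := h2
  set m : ℕ → ℕ := fun n => ⌊a * (n : ℝ)⌋₊ with hm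
  have hmle : ∀ n, (m n : ℝ) ≤ a * n := fun n => Nat.floor_le (by positivity)
  have hmn : ∀ n, m n ≤ n := by
    intro n
    have h3 : (m n : ℝ) ≤ n := (hmle n).trans (by nlinarith [(Nat.cast_nonneg n : (0 : ℝ) ≤ n)])
    exact_mod_cast h3
  have hmt : Tendsto m atTop atTop :=
    tendsto_nat_floor_atTop.comp (tendsto_natCast_atTop_atTop.const_mul_atTop ha0)
  have hmr : Tendsto (fun n : ℕ => (m n : ℝ) / (n : ℝ)) atTop (𝓝 a) :=
    (tendsto_nat_floor_mul_div_atTop ha).comp tendsto_natCast_atTop_atTop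
  -- the second length
  have hkey : ∀ᶠ n : ℕ in atTop, ((n - m n - 1 : ℕ) : ℝ) = (n : ℝ) - m n - 1 := by
    have h4 : Tendsto (fun n : ℕ => b * (n : ℝ)) atTop atTop :=
      tendsto_natCast_atTop_atTop.const_mul_atTop hb0
    filter_upwards [h4.eventually_ge_atTop 1] with n hn
    have h5 : (m n : ℝ) + 1 ≤ n := by
      have h6 := hmle n
      have h7 : (n : ℝ) = a * n + b * n := by rw [← add_mul, hab, one_mul]
      linarith
    have h6 : m n + 1 ≤ n := by exact_mod_cast h5
    rw [Nat.sub_sub, Nat.cast_sub h6]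
    push_cast
    ring
  have hkt : Tendsto (fun n : ℕ => n - m n - 1) atTop atTop := by
    have h4 : Tendsto (fun n : ℕ => b * (n : ℝ) + (-1)) atTop atTop :=
      tendsto_atTop_add_const_right _ _ (tendsto_natCast_atTop_atTop.const_mul_atTop hb0)
    rw [← tendsto_natCast_atTop_iff (R := ℝ)]
    refine tendsto_atTop_mono' _ ?_ h4
    filter_upwards [hkey] with n hn
    rw [hn]
    have h6 := hmle n
    have h7 : (n : ℝ) = a * n + b * n := by rw [← add_mul, hab, one_mul]
    linarith
  have hkr : Tendsto (fun n : ℕ => ((n - m n - 1 : ℕ) : ℝ) / (n : ℝ)) atTop (𝓝 b) := by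
    have h5 : Tendsto (fun n : ℕ => 1 - (m n : ℝ) / (n : ℝ) - 1 / (n : ℝ)) atTop
        (𝓝 (1 - a - 0)) := (tendsto_const_nhds.sub hmr).sub tendsto_one_div_atTop_nhds_zero_nat
    have h6 : 1 - a - 0 = b := by linarith
    rw [h6] at h5
    refine h5.congr' ?_
    filter_upwards [hkey, eventually_ge_atTop 1] with n hn hn1
    have hn0 : (n : ℝ) ≠ 0 := by
      have : 0 < n := hn1
      positivity
    rw [hn]
    field_simp
  refine ⟨fun n => cat (m n) (w1 (m n)) (w2 (n - m n - 1)), fun n => cat_gold (hg1 _) (hg2 _), ?_⟩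
  intro u
  have hf : Tendsto (fun n : ℕ => (cnt j (w1 (m n)) (m n) u : ℝ) / (n : ℝ) +
      (cnt j (w2 (n - m n - 1)) (n - m n - 1) u : ℝ) / (n : ℝ)) atTop
      (𝓝 (a * μ1 u + b * μ2 u)) :=
    (ratio_lim (c := fun k => cnt j (w1 k) k u) hmt (hl1 u) hmr).add
      (ratio_lim (c := fun k => cnt j (w2 k) k u) hkt (hl2 u) hkr)
  have hg : Tendsto (fun n : ℕ => ((cnt j (w1 (m n)) (m n) u : ℝ) / (n : ℝ) +
      (cnt j (w2 (n - m n - 1)) (n - m n - 1) u : ℝ) / (n : ℝ)) + ((j : ℝ) + 1) / (n : ℝ)) atTop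
      (𝓝 (a * μ1 u + b * μ2 u)) := by
    have h7 := hf.add (tendsto_const_div_atTop_nhds_zero_nat ((j : ℝ) + 1))
    rwa [add_zero] at h7
  refine tendsto_of_tendsto_of_tendsto_of_le_of_le hf hg (fun n => ?_) (fun n => ?_)
  · have h8 := (cnt_cat j n (m n) (w1 (m n)) (w2 (n - m n - 1)) u (hmn n)).1
    have h9 : (cnt j (w1 (m n)) (m n) u : ℝ) + (cnt j (w2 (n - m n - 1)) (n - m n - 1) u : ℝ) ≤
      (cnt j (cat (m n) (w1 (m n)) (w2 (n - m n - 1))) n u : ℝ) := by exact_mod_cast h8
    show _ / (n : ℝ) + _ / (n : ℝ) ≤ _ / (n : ℝ)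
    rw [← add_div]
    exact div_le_div_of_nonneg_right h9 (Nat.cast_nonneg n)
  · have h8 := (cnt_cat j n (m n) (w1 (m n)) (w2 (n - m n - 1)) u (hmn n)).2
    have h9 : (cnt j (cat (m n) (w1 (m n)) (w2 (n - m n - 1))) n u : ℝ) ≤
      (cnt j (w1 (m n)) (m n) u : ℝ) + (cnt j (w2 (n - m n - 1)) (n - m n - 1) u : ℝ) +
        ((j : ℝ) + 1) := by exact_mod_cast h8
    show _ / (n : ℝ) ≤ _ / (n : ℝ) + _ / (n : ℝ) + _ / (n : ℝ)
    rw [← add_div, ← add_div]
    exact div_le_div_of_nonneg_right h9 (Nat.cast_nonneg n)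

end FeasR.P3
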