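import Pool.Agent.R666.FR.Stms

/-!
# FR-4: consecutive occurrences in a coded permutation are counted by windows of the code
-/

namespace FeasR

namespace P4

lemma R_shift (T : Ty) (w w' : ℕ → Bool) (i a b : ℕ) (hab : a < b)
    (h : ∀ t, t ≤ b → w' t = w (i + t)) : T.R w (i + a) (i + b) ↔ T.R w' a b := by
  cases T with
  | L =>
    simp only [Ty.R]
    constructor
    · intro H t h1 h2
      rw [h t h2.le]
      exact H (i + t) (by omega) (by omega)
    · intro H t h1 h2
      have := H (t - i) (by omega) (by omega)
      rw [h (t - i) (by omega)] at this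
      rwa [show i + (t - i) = t by omega] at this
  | X =>
    simp only [Ty.R]
    rw [h (b - 1) (by omega), show i + b - 1 = i + (b - 1) by omega]
  | Y =>
    simp only [Ty.R]
    rw [h a hab.le]
  | E =>
    simp only [Ty.R]
    rw [h b le_rfl]
    refine and_congr Iff.rfl ?_
    constructor
    · intro H t h1 h2
      rw [h t h2.le]
      exact H (i + t) (by omega) (by omega)
    · intro H t h1 h2
      have := H (t - i) (by omega) (by omega)
      rw [h (t - i) (by omega)] at this
      rwa [show i + (t - i) = t by omega] at this
  | F =>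
    simp only [Ty.R]
    rw [h a hab.le]
    refine and_congr Iff.rfl ?_
    constructor
    · intro H t h1 h2
      rw [h t h2]
      exact H (i + t) (by omega) (by omega)
    · intro H t h1 h2
      have := H (t - i) (by omega) (by omega)
      rw [h (t - i) (by omega)] at this
      rwa [show i + (t - i) = t by omega] at this

lemma ext_win (j : ℕ) (w : ℕ → Bool) (i t : ℕ) (ht : t ≤ j) :
    ext (win j w i) t = w (i + t) := by
  unfold ext win
  rw [dif_pos (by omega)]

lemma occAt_iff (T : Ty) (j n : ℕ) (σ : Equiv.Perm (Fin n)) (w : ℕ → Bool) (hσ : Code T σ w)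
    (π : Equiv.Perm (Fin (j + 1))) (i : ℕ) :
    OccAt π σ i ↔ i + (j + 1) ≤ n ∧ Code T π (ext (win j w i)) := by
  have key : ∀ (h : i + (j + 1) ≤ n) (a b : Fin (j + 1)), a < b →
      (σ ⟨i + b, by omega⟩ < σ ⟨i + a, by omega⟩ ↔ T.R (ext (win j w i)) a b) := by
    intro h a b hab
    have h1 := hσ ⟨i + a, by omega⟩ ⟨i + b, by omega⟩ (by
      rw [Fin.lt_def]; simp only; have := Fin.lt_def.1 hab; omega)
    rw [h1]
    exact R_shift T w (ext (win j w i)) i a b (Fin.lt_def.1 hab)
      (fun t ht => ext_win j w i t (by have := b.2; omega))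
  unfold OccAt
  constructor
  · rintro ⟨h, H⟩
    refine ⟨h, fun a b hab => ?_⟩
    rw [H b a]
    exact key h a b hab
  · rintro ⟨h, H⟩
    refine ⟨h, fun a b => ?_⟩
    rcases lt_trichotomy a b with hab | hab | hab
    · have h1 := (H a b hab).trans (key h a b hab).symm
      have hne : π a ≠ π b := fun e => hab.ne (π.injective e)
      have hne' : σ ⟨i + a, by omega⟩ ≠ σ ⟨i + b, by omega⟩ := fun e => by
        have := σ.injective e
        rw [Fin.mk.injEq] at this
        exact hab.ne (Fin.ext (by omega))
      constructor
      · intro h2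
        rcases lt_or_gt_of_ne hne' with h3 | h3
        · exact h3
        · exact absurd (h1.2 h3) (not_lt.2 h2.le)
      · intro h2
        rcases lt_or_gt_of_ne hne with h3 | h3
        · exact h3
        · exact absurd (h1.1 h3) (not_lt.2 h2.le)
    · subst hab
      simp
    · exact (H b a hab).trans (key h b a hab).symm

open Classical in
theorem main : CoccStm := by
  intro T j n σ w hσ π
  have h1 : cocc π σ = ((Finset.range (n - j)).filter
      (fun i => Code T π (ext (win j w i)))).card := by
    unfold cocc
    congr 1
    ext i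
    simp only [Finset.mem_filter, Finset.mem_range]
    rw [occAt_iff T j n σ w hσ π i]
    constructor
    · rintro ⟨h2, h3, h4⟩
      exact ⟨by omega, h4⟩
    · rintro ⟨h2, h3⟩
      exact ⟨by omega, by omega, h3⟩
  have h2 : ((Finset.range (n - j)).filter (fun i => Code T π (ext (win j w i)))).card
      = ∑ u with Code T π (ext u), cnt j w n u := by
    rw [Finset.card_eq_sum_card_fiberwise
      (f := fun i => win j w i) (t := Finset.univ.filter (fun u => Code T π (ext u)))]
    · refine Finset.sum_congr rfl fun u hu => ?_
      unfold cnt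
      congr 1
      ext i
      simp only [Finset.mem_filter, Finset.mem_range, Finset.mem_univ, true_and] at hu ⊢
      constructor
      · rintro ⟨⟨h3, h4⟩, h5⟩
        exact ⟨h3, h5⟩
      · rintro ⟨h3, h5⟩
        exact ⟨⟨h3, by rw [h5]; exact hu⟩, h5⟩
    · intro i hi
      simp only [Finset.coe_filter, Finset.mem_range, Set.mem_ofPred_eq, Finset.mem_univ,
        true_and] at hi ⊢
      exact hi.2
  rw [h1, h2]
  push_cast
  rfl

end P4

end FeasR
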