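import Pool.Agent.R666.FR.Stms

/-!
# Piece FR-5 of MP_9c7f60_co: one inclusion, by compactness
-/

namespace FeasR.P5

open FeasR Filter Topology Finset

theorem cnt_real (j : ℕ) (w : ℕ → Bool) (n : ℕ) (u : Fin (j + 1) → Bool) :
    (cnt j w n u : ℝ) = ∑ i ∈ range (n - j), if win j w i = u then (1 : ℝ) else 0 := by
  rw [cnt, Finset.card_filter]
  push_cast
  rfl

theorem sum_cnt (j : ℕ) (w : ℕ → Bool) (n : ℕ) (P : (Fin (j + 1) → Bool) → Prop)
    [DecidablePred P] :
    ∑ u with P u, (cnt j w n u : ℝ) =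
      ∑ i ∈ range (n - j), if P (win j w i) then (1 : ℝ) else 0 := by
  simp only [cnt_real]
  rw [Finset.sum_comm]
  refine Finset.sum_congr rfl fun i _ => ?_
  rw [Finset.sum_filter]
  by_cases h : P (win j w i)
  · rw [if_pos h, Finset.sum_eq_single (win j w i)]
    · rw [if_pos h, if_pos rfl]
    · intro b _ hb
      split_ifs with h1 h2
      · exact absurd h2.symm hb
      · rfl
      · rfl
    · intro h'; exact absurd (Finset.mem_univ _) h'
  · rw [if_neg h]
    refine Finset.sum_eq_zero fun u _ => ?_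
    split_ifs with h1 h2
    · subst h2; exact absurd h1 h
    · rfl
    · rfl

theorem cnt_le (j : ℕ) (w : ℕ → Bool) (n : ℕ) (u : Fin (j + 1) → Bool) : cnt j w n u ≤ n := by
  refine (Finset.card_filter_le _ _).trans ?_
  rw [Finset.card_range]
  omega

theorem sum_all (j : ℕ) (w : ℕ → Bool) (n : ℕ) :
    ∑ u, (cnt j w n u : ℝ) = ((n - j : ℕ) : ℝ) := by
  have := sum_cnt j w n (fun _ => True)
  simpa using this

theorem init_win (j : ℕ) (w : ℕ → Bool) (i : ℕ) :
    Fin.init (α := fun _ => Bool) (win j w i) = fun t : Fin j => w (i + t) := rfl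

theorem tail_win (j : ℕ) (w : ℕ → Bool) (i : ℕ) :
    Fin.tail (α := fun _ => Bool) (win j w i) = fun t : Fin j => w (i + 1 + t) := by
  funext t
  simp only [Fin.tail, win, Fin.val_succ]
  congr 1
  ring

/-- the balance up to an error of one -/
theorem balance (j : ℕ) (w : ℕ → Bool) (n : ℕ) (s : Fin j → Bool) :
    |∑ u with Fin.init (α := fun _ => Bool) u = s, (cnt j w n u : ℝ) -
      ∑ u with Fin.tail (α := fun _ => Bool) u = s, (cnt j w n u : ℝ)| ≤ 1 := by
  rw [sum_cnt j w n (fun u => Fin.init (α := fun _ => Bool) u = s),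
    sum_cnt j w n (fun u => Fin.tail (α := fun _ => Bool) u = s)]
  have e1 : (∑ i ∈ range (n - j), if Fin.init (α := fun _ => Bool) (win j w i) = s
      then (1 : ℝ) else 0) =
      ∑ i ∈ range (n - j), if (fun t : Fin j => w (i + t)) = s then (1 : ℝ) else 0 :=
    Finset.sum_congr rfl fun i _ => if_congr (by rw [init_win]) rfl rfl
  have e2 : (∑ i ∈ range (n - j), if Fin.tail (α := fun _ => Bool) (win j w i) = s
      then (1 : ℝ) else 0) =
      ∑ i ∈ range (n - j), if (fun t : Fin j => w (i + 1 + t)) = s then (1 : ℝ) else 0 :=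
    Finset.sum_congr rfl fun i _ => if_congr (by rw [tail_win]) rfl rfl
  rw [e1, e2]
  have h := Finset.sum_range_sub
    (fun i => if (fun t : Fin j => w (i + t)) = s then (1 : ℝ) else 0) (n - j)
  rw [Finset.sum_sub_distrib] at h
  rw [abs_sub_comm]
  have h' : (∑ i ∈ range (n - j), if (fun t : Fin j => w (i + 1 + t)) = s then (1 : ℝ) else 0) -
      ∑ i ∈ range (n - j), (if (fun t : Fin j => w (i + t)) = s then (1 : ℝ) else 0) =
      (if (fun t : Fin j => w (n - j + t)) = s then (1 : ℝ) else 0) -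
      (if (fun t : Fin j => w (0 + t)) = s then (1 : ℝ) else 0) := h
  rw [h']
  split_ifs <;> norm_num

/-- bounded over something tending to infinity -/
theorem tendsto_bdd {N : ℕ → ℕ} (hN : Tendsto N atTop atTop) (f : ℕ → ℝ) (C : ℝ)
    (hf : ∀ m, |f m| ≤ C) : Tendsto (fun m => f m / (N m : ℝ)) atTop (𝓝 0) := by
  have hN' : Tendsto (fun m => (N m : ℝ)) atTop atTop := tendsto_natCast_atTop_atTop.comp hN
  have h0 : Tendsto (fun m => C / (N m : ℝ)) atTop (𝓝 0) := hN'.const_div_atTop C
  refine squeeze_zero_norm (fun m => ?_) h0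
  rw [Real.norm_eq_abs, abs_div, Nat.abs_cast]
  exact div_le_div_of_nonneg_right (hf m) (Nat.cast_nonneg _)

theorem main : CoccStm → UpperStm := by
  classical
  intro hC B T g hH j v hv
  obtain ⟨N, σ, hav, hN, hlim⟩ := hv
  choose w hw hcode using fun m => hH (N m) (σ m) (hav m)
  set x : ℕ → (Fin (j + 1) → Bool) → ℝ := fun m u => (cnt j (w m) (N m) u : ℝ) / (N m : ℝ) with hx
  have hcomp : IsCompact (Set.pi Set.univ fun _ : Fin (j + 1) → Bool => Set.Icc (0 : ℝ) 1) :=
    isCompact_univ_pi fun _ => isCompact_Icc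
  have hmem : ∀ m, x m ∈ (Set.pi Set.univ fun _ : Fin (j + 1) → Bool => Set.Icc (0 : ℝ) 1) := by
    intro m u _
    refine ⟨div_nonneg (Nat.cast_nonneg _) (Nat.cast_nonneg _), ?_⟩
    refine div_le_one_of_le₀ ?_ (Nat.cast_nonneg _)
    exact_mod_cast cnt_le j (w m) (N m) u
  obtain ⟨μ, hμ, φ, hφ, hconv⟩ := hcomp.tendsto_subseq hmem
  have hu : ∀ u, Tendsto (fun m => x (φ m) u) atTop (𝓝 (μ u)) := by
    intro u
    exact (tendsto_pi_nhds.1 hconv) u
  have hNφ : Tendsto (fun m => N (φ m)) atTop atTop := hN.comp hφ.tendsto_atTop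
  have hNr : Tendsto (fun m => (N (φ m) : ℝ)) atTop atTop := tendsto_natCast_atTop_atTop.comp hNφ
  refine ⟨μ, ⟨fun u => (hμ u (Set.mem_univ u)).1, ?_, ?_, ?_⟩, ?_⟩
  · -- total mass
    have h1 : Tendsto (fun m => ∑ u, x (φ m) u) atTop (𝓝 (∑ u, μ u)) :=
      tendsto_finsetSum _ fun u _ => hu u
    have h2 : Tendsto (fun m => ∑ u, x (φ m) u) atTop (𝓝 1) := by
      have h3 : Tendsto (fun m => (((N (φ m) - j : ℕ) : ℝ) - (N (φ m) : ℝ)) / (N (φ m) : ℝ))
          atTop (𝓝 0) := by
        refine tendsto_bdd hNφ _ j fun m => ?_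
        rw [abs_le]
        have a1 : (N (φ m) : ℝ) ≤ ((N (φ m) - j : ℕ) : ℝ) + j := by
          exact_mod_cast (by omega : N (φ m) ≤ N (φ m) - j + j)
        have a2 : ((N (φ m) - j : ℕ) : ℝ) ≤ (N (φ m) : ℝ) := by
          exact_mod_cast Nat.sub_le _ _
        constructor <;> linarith [(Nat.cast_nonneg j : (0 : ℝ) ≤ j)]
      have h4 := h3.add_const 1
      rw [zero_add] at h4
      refine h4.congr' ?_
      filter_upwards [hNr.eventually_gt_atTop 0] with m hm
      rw [hx]
      dsimp only
      rw [← Finset.sum_div, sum_all]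
      field_simp
      ring
    exact tendsto_nhds_unique h1 h2
  · -- balance
    intro s
    have h1 : Tendsto (fun m => ∑ u with Fin.init (α := fun _ => Bool) u = s, x (φ m) u) atTop
        (𝓝 (∑ u with Fin.init (α := fun _ => Bool) u = s, μ u)) :=
      tendsto_finsetSum _ fun u _ => hu u
    have h2 : Tendsto (fun m => ∑ u with Fin.tail (α := fun _ => Bool) u = s, x (φ m) u) atTop
        (𝓝 (∑ u with Fin.tail (α := fun _ => Bool) u = s, μ u)) :=
      tendsto_finsetSum _ fun u _ => hu u
    have h3 := h1.sub h2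
    have h4 : Tendsto (fun m => (∑ u with Fin.init (α := fun _ => Bool) u = s, x (φ m) u) -
        ∑ u with Fin.tail (α := fun _ => Bool) u = s, x (φ m) u) atTop (𝓝 0) := by
      have := tendsto_bdd hNφ (fun m =>
        ∑ u with Fin.init (α := fun _ => Bool) u = s, (cnt j (w (φ m)) (N (φ m)) u : ℝ) -
        ∑ u with Fin.tail (α := fun _ => Bool) u = s, (cnt j (w (φ m)) (N (φ m)) u : ℝ)) 1
        (fun m => balance j (w (φ m)) (N (φ m)) s)
      refine this.congr fun m => ?_
      rw [sub_div, Finset.sum_div, Finset.sum_div]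
    exact sub_eq_zero.1 (tendsto_nhds_unique h3 h4)
  · -- golden
    intro hg u hu1
    have h1 : Tendsto (fun m => x (φ m) u) atTop (𝓝 0) := by
      have h0 : ∀ m, x (φ m) u = 0 := by
        intro m
        have : cnt j (w (φ m)) (N (φ m)) u = 0 := by
          rw [cnt, Finset.card_eq_zero, Finset.filter_eq_empty_iff]
          intro i _ hi
          obtain ⟨t, ht1, ht2⟩ := hu1
          rw [← hi] at ht1 ht2
          have := hw (φ m) hg (i + t)
          apply this
          constructor
          · exact ht1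
          · have h5 : win j (w (φ m)) i t.succ = w (φ m) (i + t + 1) := by
              simp only [win, Fin.val_succ]
              congr 1
            rw [← h5]; exact ht2
        rw [hx]
        dsimp only
        rw [this]
        simp
      simp only [h0]
      exact tendsto_const_nhds
    exact tendsto_nhds_unique (hu u) h1
  · -- the map
    intro π
    have h1 : Tendsto (fun m => ∑ u with Code T π (ext u), x (φ m) u) atTop
        (𝓝 (∑ u with Code T π (ext u), μ u)) :=
      tendsto_finsetSum _ fun u _ => hu u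
    have h2 : Tendsto (fun m => ∑ u with Code T π (ext u), x (φ m) u) atTop (𝓝 (v π)) := by
      refine ((hlim π).comp hφ.tendsto_atTop).congr fun m => ?_
      simp only [Function.comp]
      rw [hC T j (N (φ m)) (σ (φ m)) (w (φ m)) (hcode (φ m)) π, Finset.sum_div]
    exact tendsto_nhds_unique h2 h1

end FeasR.P5
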