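import Pool.Agent.R666.FR.Stms

/-! Piece FR-6 for MP_9c7f60_co. -/

set_option autoImplicit false

namespace FeasR.P6

open Filter Topology

lemma approx (hcyc : CycleStm) (hper : PeriodicStm) (hconv : ConvexStm) (g : Bool) (j : ℕ)
    (hg : g = true → 1 ≤ j) {μ : (Fin (j + 1) → Bool) → ℝ} (hμ : μ ∈ Bal g j) : μ ∈ Approx g j := by
  refine convexHull_min ?_ (hconv g j) (hcyc g j hg μ hμ)
  rintro ν ⟨L, p, hL, hp, hgold, rfl⟩
  exact ⟨fun _ => p, fun _ => hgold, fun u => hper j L p hL hp u⟩

theorem main : CoccStm → CycleStm → PeriodicStm → ConvexStm → LowerStm := by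
  intro hcocc hcyc hper hconv B T g hH2 j v hv
  obtain ⟨μ, hμ, hv⟩ := hv
  by_cases hg : g = true → 1 ≤ j
  · obtain ⟨w, hw, hlim⟩ := approx hcyc hper hconv g j hg hμ
    choose σ hσ hcode using fun m => hH2 m (w m) (hw m)
    refine ⟨fun m => m, σ, hσ, tendsto_id, fun π => ?_⟩
    rw [hv π]
    have h1 : (fun m : ℕ => (cocc π (σ m) : ℝ) / (m : ℝ)) = fun m : ℕ =>
        (open Classical in ∑ u with Code T π (ext u), (cnt j (w m) m u : ℝ) / (m : ℝ)) := by
      funext m
      rw [hcocc T j m (σ m) (w m) (hcode m) π, Finset.sum_div]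
    rw [h1]
    exact tendsto_finsetSum _ fun u _ => hlim u
  · have hj : j = 0 := by
      by_contra h
      exact hg fun _ => Nat.one_le_iff_ne_zero.2 h
    subst hj
    have hall : ∀ (π : Equiv.Perm (Fin (0 + 1))) (u : ℕ → Bool), Code T π u := by
      intro π u a b hab
      omega
    choose σ hσ hcode using fun m => hH2 m (fun _ => false) (fun _ t h => by simp at h)
    refine ⟨fun m => m, σ, hσ, tendsto_id, fun π => ?_⟩
    have hv1 : v π = 1 := by
      rw [hv π]
      have : (open Classical in Finset.filter (fun u : Fin (0 + 1) → Bool => Code T π (ext u))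
          Finset.univ) = Finset.univ := by
        classical
        exact Finset.filter_true_of_mem fun u _ => hall π _
      rw [this]
      exact hμ.2.1
    rw [hv1]
    refine Tendsto.congr' ?_ tendsto_const_nhds
    filter_upwards [eventually_gt_atTop 0] with m hm
    rw [hcocc T 0 m (σ m) _ (hcode m) π]
    have : (open Classical in Finset.filter (fun u : Fin (0 + 1) → Bool => Code T π (ext u))
        Finset.univ) = Finset.univ := by
      classical
      exact Finset.filter_true_of_mem fun u _ => hall π _
    rw [this]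
    have hsum : ∑ u : Fin (0 + 1) → Bool, cnt 0 (fun _ => false) m u = m := by
      unfold cnt
      have := Finset.card_eq_sum_card_fiberwise (s := Finset.range (m - 0))
        (t := (Finset.univ : Finset (Fin (0 + 1) → Bool))) (f := fun i => win 0 (fun _ => false) i)
        (fun _ _ => Finset.mem_coe.2 (Finset.mem_univ _))
      rw [← this, Finset.card_range, Nat.sub_zero]
    have hsum' : ∑ u : Fin (0 + 1) → Bool, (cnt 0 (fun _ => false) m u : ℝ) = m := by
      exact_mod_cast hsum
    rw [hsum', div_self]
    exact_mod_cast hm.ne'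

end FeasR.P6

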