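import Pool.Agent.R666.FR.Stms

namespace FeasR.P7

theorem main : StdStm := by
  intro n f hf
  set s : Finset ℤ := Finset.univ.image f with hs
  have hcard : s.card = n := by
    rw [hs, Finset.card_image_of_injective _ hf, Finset.card_univ, Fintype.card_fin]
  let e := s.orderIsoOfFin hcard
  have hmem : ∀ a, f a ∈ s := fun a => Finset.mem_image_of_mem f (Finset.mem_univ a)
  let g : Fin n → Fin n := fun a => e.symm ⟨f a, hmem a⟩
  have hg : Function.Injective g := by
    intro a b hab
    have h1 : (⟨f a, hmem a⟩ : s) = ⟨f b, hmem b⟩ := e.symm.injective hab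
    exact hf (Subtype.ext_iff.mp h1)
  refine ⟨Equiv.ofBijective g (Finite.injective_iff_bijective.mp hg), ?_⟩
  intro a b
  show e.symm ⟨f a, hmem a⟩ < e.symm ⟨f b, hmem b⟩ ↔ f a < f b
  rw [e.symm.lt_iff_lt]
  exact Iff.rfl

end FeasR.P7
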