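import Pool.Agent.R666.FR.Stms

/-! Piece FR-8 for MP_9c7f60_co: layered permutations. -/

set_option autoImplicit false

namespace FeasR.P8

open Filter Topology

/-! ### H2 -/

/-- the number of `false` letters before `t` -/
def cc (w : ℕ → Bool) : ℕ → ℤ
  | 0 => 0
  | t + 1 => cc w t + (if w t = true then 0 else 1)

lemma cc_mono (w : ℕ → Bool) {a b : ℕ} (h : a ≤ b) : cc w a ≤ cc w b := by
  induction b, h using Nat.le_induction with
  | base => exact le_rfl
  | succ b _ ih => rw [cc]; split_ifs <;> linarith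

lemma cc_eq (w : ℕ → Bool) {a b : ℕ} (h : a ≤ b) :
    cc w b = cc w a ↔ ∀ t, a ≤ t → t < b → w t = true := by
  induction b, h using Nat.le_induction with
  | base => exact ⟨fun _ t h1 h2 => by omega, fun _ => rfl⟩
  | succ b hab ih =>
    have h1 := cc_mono w hab
    rw [cc]
    constructor
    · intro h2 t ht1 ht2
      by_cases hwb : w b = true
      · rw [if_pos hwb, add_zero] at h2
        rcases Nat.lt_succ_iff_lt_or_eq.1 ht2 with h3 | h3
        · exact ih.1 h2 t ht1 h3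
        · rw [h3]; exact hwb
      · rw [if_neg hwb] at h2
        omega
    · intro h2
      rw [if_pos (h2 b hab (Nat.lt_succ_self b)), add_zero]
      exact ih.2 fun t ht1 ht2 => h2 t ht1 (by omega)

def ff (n : ℕ) (w : ℕ → Bool) (t : Fin n) : ℤ := n * cc w t - t

lemma ff_lt {n : ℕ} (w : ℕ → Bool) {a b : Fin n} (h : a < b) :
    (ff n w b < ff n w a ↔ ∀ t, (a : ℕ) ≤ t → t < (b : ℕ) → w t = true) ∧
    (ff n w b ≠ ff n w a) := by
  have hab : (a : ℕ) < b := h
  have hb : (b : ℕ) < n := b.2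
  have h1 := cc_mono w hab.le
  rw [← cc_eq w hab.le]
  unfold ff
  have key : cc w b = cc w a ∨ cc w a + 1 ≤ cc w b := by omega
  rcases key with h2 | h2
  · rw [h2]
    constructor
    · constructor
      · intro _; rfl
      · intro _; omega
    · omega
  · have h3 : (n : ℤ) * (cc w a + 1) ≤ n * cc w b := mul_le_mul_of_nonneg_left h2 (by omega)
    have h4 : (n : ℤ) * (cc w a + 1) = n * cc w a + n := by ring
    rw [h4] at h3
    constructor
    · constructor
      · intro h5; exfalso; omega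
      · intro h5; omega
    · omega

lemma h2 (hstd : StdStm) (n : ℕ) (w : ℕ → Bool) : ∃ σ : Equiv.Perm (Fin n), Code .L σ w := by
  obtain ⟨σ, hσ⟩ := hstd n (ff n w) (by
    intro a b hab
    rcases lt_trichotomy a b with h | h | h
    · exact absurd hab.symm (ff_lt w h).2
    · exact h
    · exact absurd hab (ff_lt w h).2)
  refine ⟨σ, fun a b hab => ?_⟩
  rw [hσ b a, (ff_lt w hab).1]
  exact Iff.rfl

lemma avoid2 {n : ℕ} {w : ℕ → Bool} {σ : Equiv.Perm (Fin n)} (h : Code .L σ w) :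
    (∀ i j l : Fin n, i < j → j < l → ¬ P3.p231.Rel (σ i) (σ j) (σ l)) ∧
    (∀ i j l : Fin n, i < j → j < l → ¬ P3.p312.Rel (σ i) (σ j) (σ l)) ∧
    (Gold true w → ∀ i j l : Fin n, i < j → j < l → ¬ P3.p321.Rel (σ i) (σ j) (σ l)) := by
  refine ⟨?_, ?_, ?_⟩
  · rintro i j l hij hjl ⟨h1, h2⟩
    have h3 : ∀ t, (i : ℕ) ≤ t → t < (l : ℕ) → w t = true := (h i l (hij.trans hjl)).1 h1
    have h4 : σ j < σ i := (h i j hij).2 fun t ht1 ht2 => h3 t ht1 (ht2.trans hjl)
    exact absurd h2 h4.asymm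
  · rintro i j l hij hjl ⟨h1, h2⟩
    have h3 : ∀ t, (i : ℕ) ≤ t → t < (l : ℕ) → w t = true := (h i l (hij.trans hjl)).1 h2
    have h4 : σ l < σ j := (h j l hjl).2 fun t ht1 ht2 => h3 t
      (le_trans (show (i : ℕ) ≤ j from hij.le) ht1) ht2
    exact absurd h1 h4.asymm
  · rintro hg i j l hij hjl ⟨h1, h2⟩
    have h3 : ∀ t, (i : ℕ) ≤ t → t < (l : ℕ) → w t = true :=
      (h i l (hij.trans hjl)).1 (h1.trans h2)
    have h4 : (i : ℕ) < j := hij
    have h5 : (j : ℕ) < l := hjl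
    exact hg rfl i ⟨h3 i le_rfl (by omega), h3 (i + 1) (by omega) (by omega)⟩

/-! ### H1 -/

open Classical in
/-- the word of the descents -/
noncomputable def dd {n : ℕ} (σ : Equiv.Perm (Fin n)) (t : ℕ) : Bool :=
  decide (∃ h : t + 1 < n, σ ⟨t + 1, h⟩ < σ ⟨t, by omega⟩)

lemma dd_iff {n : ℕ} (σ : Equiv.Perm (Fin n)) (t : ℕ) :
    dd σ t = true ↔ ∃ h : t + 1 < n, σ ⟨t + 1, h⟩ < σ ⟨t, by omega⟩ := by
  unfold dd; simp

lemma chain {n : ℕ} (σ : Equiv.Perm (Fin n)) (a : Fin n) (b : ℕ) (hab : (a : ℕ) < b) (hb : b < n)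
    (h : ∀ t, (a : ℕ) ≤ t → t < b → dd σ t = true) : σ ⟨b, hb⟩ < σ a := by
  induction b, hab using Nat.le_induction with
  | base =>
    obtain ⟨h1, h2⟩ := (dd_iff σ _).1 (h a le_rfl (Nat.lt_succ_self _))
    exact h2
  | succ b hab ih =>
    obtain ⟨h1, h2⟩ := (dd_iff σ _).1 (h b (by omega) (Nat.lt_succ_self _))
    exact h2.trans (ih (by omega) fun t ht1 ht2 => h t ht1 (by omega))

lemma code {n : ℕ} (σ : Equiv.Perm (Fin n))
    (h231 : ∀ i j l : Fin n, i < j → j < l → ¬ P3.p231.Rel (σ i) (σ j) (σ l))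
    (h312 : ∀ i j l : Fin n, i < j → j < l → ¬ P3.p312.Rel (σ i) (σ j) (σ l)) :
    Code .L σ (dd σ) := by
  intro a b hab
  constructor
  · intro hinv t hat htb
    have hbn : (b : ℕ) < n := b.2
    have hmid : ∀ c : Fin n, a < c → c < b → σ b < σ c ∧ σ c < σ a := by
      intro c hac hcb
      constructor
      · by_contra hcon
        have h1 : σ c < σ b := lt_of_le_of_ne (not_lt.1 hcon) (fun h => hcb.ne (σ.injective h))
        exact h312 a c b hac hcb ⟨h1, hinv⟩
      · by_contra hcon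
        have h1 : σ a < σ c := lt_of_le_of_ne (not_lt.1 hcon) (fun h => hac.ne (σ.injective h))
        exact h231 a c b hac hcb ⟨hinv, h1⟩
    rw [dd_iff]
    refine ⟨by omega, ?_⟩
    by_contra hcon
    have h1 : σ ⟨t, by omega⟩ < σ ⟨t + 1, by omega⟩ := lt_of_le_of_ne (not_lt.1 hcon)
      (fun h => by have := congrArg Fin.val (σ.injective h); simp at this)
    rcases Nat.eq_or_lt_of_le hat with h2 | h2
    · -- t = a
      have hta : (⟨t, by omega⟩ : Fin n) = a := Fin.ext h2.symm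
      rw [hta] at h1
      rcases Nat.eq_or_lt_of_le (Nat.succ_le_of_lt htb) with h3 | h3
      · have htb' : (⟨t + 1, by omega⟩ : Fin n) = b := Fin.ext h3
        rw [htb'] at h1
        exact absurd hinv h1.asymm
      · have := (hmid ⟨t + 1, by omega⟩ (Fin.lt_def.2 (by show (a : ℕ) < t + 1; omega))
          (Fin.lt_def.2 h3)).2
        exact absurd this h1.asymm
    · rcases Nat.eq_or_lt_of_le (Nat.succ_le_of_lt htb) with h3 | h3
      · have htb' : (⟨t + 1, by omega⟩ : Fin n) = b := Fin.ext h3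
        rw [htb'] at h1
        have := (hmid ⟨t, by omega⟩ (Fin.lt_def.2 h2) (Fin.lt_def.2 htb)).1
        exact absurd this h1.asymm
      · have h4 := (hmid ⟨t + 1, by omega⟩ (Fin.lt_def.2 (by show (a : ℕ) < t + 1; omega))
          (Fin.lt_def.2 h3)).2
        exact h312 a ⟨t, by omega⟩ ⟨t + 1, by omega⟩ (Fin.lt_def.2 h2)
          (Fin.lt_def.2 (Nat.lt_succ_self t)) ⟨h1, h4⟩
  · intro h
    have := chain σ a b hab b.2 h
    exact this

theorem main : StdStm → CodeLStm := by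
  intro hstd
  refine ⟨?_, ?_, ?_, ?_⟩
  · intro n σ hσ
    exact ⟨dd σ, fun h => by simp at h, code σ (hσ .p231 (by simp)) (hσ .p312 (by simp))⟩
  · intro n σ hσ
    refine ⟨dd σ, fun _ t ht => ?_, code σ (hσ .p231 (by simp)) (hσ .p312 (by simp))⟩
    obtain ⟨h1, h2⟩ := (dd_iff σ _).1 ht.1
    obtain ⟨h3, h4⟩ := (dd_iff σ _).1 ht.2
    exact hσ .p321 (by simp) ⟨t, by omega⟩ ⟨t + 1, h1⟩ ⟨t + 1 + 1, h3⟩
      (Fin.lt_def.2 (Nat.lt_succ_self t)) (Fin.lt_def.2 (Nat.lt_succ_self (t + 1))) ⟨h4, h2⟩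
  · intro n w _
    obtain ⟨σ, hσ⟩ := h2 hstd n w
    refine ⟨σ, fun p hp => ?_, hσ⟩
    simp only [Finset.mem_insert, Finset.mem_singleton] at hp
    rcases hp with rfl | rfl
    · exact (avoid2 hσ).1
    · exact (avoid2 hσ).2.1
  · intro n w hg
    obtain ⟨σ, hσ⟩ := h2 hstd n w
    refine ⟨σ, fun p hp => ?_, hσ⟩
    simp only [Finset.mem_insert, Finset.mem_singleton] at hp
    rcases hp with rfl | rfl | rfl
    · exact (avoid2 hσ).2.2 hg
    · exact (avoid2 hσ).1
    · exact (avoid2 hσ).2.1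

end FeasR.P8

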