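import Pool.Agent.R666.FR.Stms

/-! # FR-9: the codings `X` and `Y` -/

namespace FeasR.P9

open FeasR

theorem gold_false (w : ℕ → Bool) : Gold false w := by
  intro h
  exact absurd h (by decide)

/-- the descent word -/
noncomputable def desc {n : ℕ} (σ : Equiv.Perm (Fin n)) (t : ℕ) : Bool :=
  open Classical in decide (∃ h : t + 1 < n, σ ⟨t + 1, h⟩ < σ ⟨t, by omega⟩)

theorem desc_iff {n : ℕ} (σ : Equiv.Perm (Fin n)) (t : ℕ) (h : t + 1 < n) :
    desc σ t = true ↔ σ ⟨t + 1, h⟩ < σ ⟨t, by omega⟩ := by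
  unfold desc
  rw [decide_eq_true_iff]
  constructor
  · rintro ⟨_, h'⟩
    exact h'
  · intro h'
    exact ⟨h, h'⟩

theorem X1 : H1 {.p132, .p312} .X false := by
  intro n σ hσ
  refine ⟨desc σ, gold_false _, ?_⟩
  intro a b hab
  have hab' : (a : ℕ) < b := hab
  have hb : (b : ℕ) < n := b.2
  have hw : desc σ ((b : ℕ) - 1) = true ↔ σ b < σ ⟨(b : ℕ) - 1, by omega⟩ := by
    rw [desc_iff σ ((b : ℕ) - 1) (by omega)]
    have : (⟨(b : ℕ) - 1 + 1, by omega⟩ : Fin n) = b := Fin.ext (by simp only; omega)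
    rw [this]
  show _ ↔ desc σ ((b : ℕ) - 1) = true
  rw [hw]
  by_cases hc : (a : ℕ) = (b : ℕ) - 1
  · have : (⟨(b : ℕ) - 1, by omega⟩ : Fin n) = a := Fin.ext hc.symm
    rw [this]
  · have hac : a < (⟨(b : ℕ) - 1, by omega⟩ : Fin n) := by
      show (a : ℕ) < (b : ℕ) - 1
      omega
    have hcb : (⟨(b : ℕ) - 1, by omega⟩ : Fin n) < b := by
      show (b : ℕ) - 1 < (b : ℕ)
      omega
    have h1 := hσ .p132 (by simp) a _ b hac hcb
    have h2 := hσ .p312 (by simp) a _ b hac hcb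
    simp only [P3.Rel, not_and, not_lt] at h1 h2
    have hne1 : σ a ≠ σ b := fun h => absurd (σ.injective h) (ne_of_lt hab)
    have hne2 : σ ⟨(b : ℕ) - 1, by omega⟩ ≠ σ b := fun h => absurd (σ.injective h) (ne_of_lt hcb)
    constructor
    · intro h
      rcases lt_or_gt_of_ne hne2 with h' | h'
      · exact absurd h (not_lt.mpr (h2 h'))
      · exact h'
    · intro h
      rcases lt_or_gt_of_ne hne1 with h' | h'
      · exact absurd h (not_lt.mpr (h1 h'))
      · exact h'

theorem Y1 : H1 {.p213, .p231} .Y false := by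
  intro n σ hσ
  refine ⟨desc σ, gold_false _, ?_⟩
  intro a b hab
  have hab' : (a : ℕ) < b := hab
  have hb : (b : ℕ) < n := b.2
  have hw : desc σ (a : ℕ) = true ↔ σ ⟨(a : ℕ) + 1, by omega⟩ < σ a := by
    rw [desc_iff σ (a : ℕ) (by omega)]
  show _ ↔ desc σ (a : ℕ) = true
  rw [hw]
  by_cases hc : (a : ℕ) + 1 = (b : ℕ)
  · have : (⟨(a : ℕ) + 1, by omega⟩ : Fin n) = b := Fin.ext hc
    rw [this]
  · have hac : a < (⟨(a : ℕ) + 1, by omega⟩ : Fin n) := by
      show (a : ℕ) < (a : ℕ) + 1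
      omega
    have hcb : (⟨(a : ℕ) + 1, by omega⟩ : Fin n) < b := by
      show (a : ℕ) + 1 < (b : ℕ)
      omega
    have h1 := hσ .p213 (by simp) a _ b hac hcb
    have h2 := hσ .p231 (by simp) a _ b hac hcb
    simp only [P3.Rel, not_and, not_lt] at h1 h2
    have hne1 : σ a ≠ σ b := fun h => absurd (σ.injective h) (ne_of_lt hab)
    have hne2 : σ a ≠ σ ⟨(a : ℕ) + 1, by omega⟩ :=
      fun h => absurd (σ.injective h) (ne_of_lt hac)
    constructor
    · intro h
      rcases lt_or_gt_of_ne hne2 with h' | h'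
      · exact absurd h' (not_lt.mpr (h2 h))
      · exact h'
    · intro h
      rcases lt_or_gt_of_ne hne1 with h' | h'
      · exact absurd h' (not_lt.mpr (h1 h))
      · exact h'

theorem avoidX {n : ℕ} {σ : Equiv.Perm (Fin n)} {w : ℕ → Bool} (h : Code .X σ w) :
    Avoids {.p132, .p312} σ := by
  intro p hp i j l hij hjl hrel
  have h1 := h i l (hij.trans hjl)
  have h2 := h j l hjl
  simp only [Ty.R] at h1 h2
  simp only [Finset.mem_insert, Finset.mem_singleton] at hp
  rcases hp with rfl | rfl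
  · obtain ⟨h3, h4⟩ := hrel
    exact absurd (h1.mpr (h2.mp h4)) (not_lt.mpr h3.le)
  · obtain ⟨h3, h4⟩ := hrel
    exact absurd (h2.mpr (h1.mp h4)) (not_lt.mpr h3.le)

theorem avoidY {n : ℕ} {σ : Equiv.Perm (Fin n)} {w : ℕ → Bool} (h : Code .Y σ w) :
    Avoids {.p213, .p231} σ := by
  intro p hp i j l hij hjl hrel
  have h1 := h i l (hij.trans hjl)
  have h2 := h i j hij
  simp only [Ty.R] at h1 h2
  simp only [Finset.mem_insert, Finset.mem_singleton] at hp
  rcases hp with rfl | rfl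
  · obtain ⟨h3, h4⟩ := hrel
    exact absurd (h1.mpr (h2.mp h3)) (not_lt.mpr h4.le)
  · obtain ⟨h3, h4⟩ := hrel
    exact absurd (h2.mpr (h1.mp h3)) (not_lt.mpr h4.le)

theorem X2 (hS : StdStm) : H2 {.p132, .p312} .X false := by
  intro n w _
  have key : ∀ a b : Fin n, a < b →
      ((if w ((b : ℕ) - 1) = true then -((b : ℕ) : ℤ) else ((b : ℕ) : ℤ)) <
        (if w ((a : ℕ) - 1) = true then -((a : ℕ) : ℤ) else ((a : ℕ) : ℤ)) ↔
          w ((b : ℕ) - 1) = true) ∧
      (if w ((b : ℕ) - 1) = true then -((b : ℕ) : ℤ) else ((b : ℕ) : ℤ)) ≠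
        (if w ((a : ℕ) - 1) = true then -((a : ℕ) : ℤ) else ((a : ℕ) : ℤ)) := by
    intro a b hab
    have hab' : (a : ℕ) < b := hab
    by_cases h1 : w ((b : ℕ) - 1) = true
    · by_cases h2 : w ((a : ℕ) - 1) = true
      · rw [if_pos h1, if_pos h2]
        exact ⟨⟨fun _ => h1, fun _ => by omega⟩, by omega⟩
      · rw [if_pos h1, if_neg h2]
        exact ⟨⟨fun _ => h1, fun _ => by omega⟩, by omega⟩
    · by_cases h2 : w ((a : ℕ) - 1) = true
      · rw [if_neg h1, if_pos h2]
        exact ⟨⟨fun h => by omega, fun h => absurd h h1⟩, by omega⟩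
      · rw [if_neg h1, if_neg h2]
        exact ⟨⟨fun h => by omega, fun h => absurd h h1⟩, by omega⟩
  obtain ⟨σ, hσ⟩ := hS n
    (fun t => if w ((t : ℕ) - 1) = true then -((t : ℕ) : ℤ) else ((t : ℕ) : ℤ)) (by
      intro a b hab
      simp only at hab
      rcases lt_trichotomy a b with h | h | h
      · exact absurd hab.symm (key a b h).2
      · exact h
      · exact absurd hab (key b a h).2)
  have hcode : Code .X σ w := by
    intro a b hab
    rw [hσ b a]
    exact (key a b hab).1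
  exact ⟨σ, avoidX hcode, hcode⟩

theorem Y2 (hS : StdStm) : H2 {.p213, .p231} .Y false := by
  intro n w _
  have key : ∀ a b : Fin n, a < b →
      ((if w (b : ℕ) = true then (n : ℤ) - ((b : ℕ) : ℤ) else ((b : ℕ) : ℤ) - n) <
        (if w (a : ℕ) = true then (n : ℤ) - ((a : ℕ) : ℤ) else ((a : ℕ) : ℤ) - n) ↔
          w (a : ℕ) = true) ∧
      (if w (b : ℕ) = true then (n : ℤ) - ((b : ℕ) : ℤ) else ((b : ℕ) : ℤ) - n) ≠
        (if w (a : ℕ) = true then (n : ℤ) - ((a : ℕ) : ℤ) else ((a : ℕ) : ℤ) - n) := by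
    intro a b hab
    have hab' : (a : ℕ) < b := hab
    have hb := b.2
    by_cases h1 : w (b : ℕ) = true
    · by_cases h2 : w (a : ℕ) = true
      · rw [if_pos h1, if_pos h2]
        exact ⟨⟨fun _ => h2, fun _ => by omega⟩, by omega⟩
      · rw [if_pos h1, if_neg h2]
        exact ⟨⟨fun h => by omega, fun h => absurd h h2⟩, by omega⟩
    · by_cases h2 : w (a : ℕ) = true
      · rw [if_neg h1, if_pos h2]
        exact ⟨⟨fun _ => h2, fun _ => by omega⟩, by omega⟩
      · rw [if_neg h1, if_neg h2]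
        exact ⟨⟨fun h => by omega, fun h => absurd h h2⟩, by omega⟩
  obtain ⟨σ, hσ⟩ := hS n
    (fun t => if w (t : ℕ) = true then (n : ℤ) - ((t : ℕ) : ℤ) else ((t : ℕ) : ℤ) - n) (by
      intro a b hab
      simp only at hab
      rcases lt_trichotomy a b with h | h | h
      · exact absurd hab.symm (key a b h).2
      · exact h
      · exact absurd hab (key b a h).2)
  have hcode : Code .Y σ w := by
    intro a b hab
    rw [hσ b a]
    exact (key a b hab).1
  exact ⟨σ, avoidY hcode, hcode⟩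

theorem main : StdStm → CodeXYStm := fun hS => ⟨X1, X2 hS, Y1, Y2 hS⟩

end FeasR.P9
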