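import Pool.Agent.R666.FR.Asm
import Pool.Agent.R666.FR.Piece1
import Pool.Agent.R666.FR.Piece2
import Pool.Agent.R666.FR.Piece3
import Pool.Agent.R666.FR.Piece4
import Pool.Agent.R666.FR.Piece5
import Pool.Agent.R666.FR.Piece6
import Pool.Agent.R666.FR.Piece7
import Pool.Agent.R666.FR.Piece8
import Pool.Agent.R666.FR.Piece9
import Pool.Agent.R666.FR.Piece10
import Pool.Agent.R666.FR.Piece11
import Pool.Agent.R666.FR.Piece12
import Pool.Agent.R666.FR.Piece13
import Pool.Agent.R666.FR.Piece14
import Pool.Agent.R666.FR.Piece15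
import Pool.Agent.R666.FR.Piece16
import Pool.Agent.R666.FR.Piece17

namespace FeasR

theorem answer : Target :=
  assembly (P5.main P4.main) (P6.main P4.main P1.main P2.main P3.main) (P8.main P7.main)
    (P9.main P7.main) (P10.main P7.main) (P11.main P7.main) P12.main P13.main P14.main
    (P15.main P7.main) P16.main P17.main

end FeasR
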