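import Pool.Agent.R666.FR.Stms

namespace FeasR

instance : Fintype P3 :=
  ⟨{.p123, .p132, .p213, .p231, .p312, .p321}, by intro x; cases x <;> decide⟩

theorem reg_eq (hU : UpperStm) (hL : LowerStm) {B : Finset P3} {T : Ty} {g : Bool}
    (h1 : H1 B T g) (h2 : H2 B T g) (j : ℕ) : Region B (j + 1) = Reg T g j :=
  Set.Subset.antisymm (hU B T g h1 j) (hL B T g h2 j)

theorem cases15 : ∀ B : Finset P3, 2 ≤ B.card →
    (.p123 ∈ B ∧ .p321 ∈ B) ∨
    (.p321 ∈ B ∧ .p123 ∉ B ∧ (.p132 ∈ B ∨ .p213 ∈ B)) ∨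
    B = {.p321, .p231, .p312} ∨ B = {.p321, .p312} ∨ B = {.p321, .p231} ∨
    (.p123 ∈ B ∧ .p321 ∉ B ∧ (.p231 ∈ B ∨ .p312 ∈ B)) ∨
    B = {.p123, .p213, .p132} ∨ B = {.p123, .p132} ∨ B = {.p123, .p213} ∨
    (.p123 ∉ B ∧ .p321 ∉ B ∧ .p132 ∈ B ∧ .p213 ∈ B ∧ .p231 ∈ B ∧ .p312 ∈ B) ∨
    (.p123 ∉ B ∧ .p321 ∉ B ∧ (.p132 ∉ B ∨ .p213 ∉ B ∨ .p231 ∉ B ∨ .p312 ∉ B) ∧
      ((.p132 ∈ B ∧ .p231 ∈ B) ∨ (.p213 ∈ B ∧ .p312 ∈ B))) ∨
    B = {.p231, .p312} ∨ B = {.p213, .p132} ∨ B = {.p132, .p312} ∨ B = {.p213, .p231} := by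
  decide +kernel

theorem assembly (hU : UpperStm) (hL : LowerStm) (cL : CodeLStm) (cXY : CodeXYStm)
    (cE : CodeEStm) (cF : CodeFStm) (hc : CplStm) (hI : IncStm) (hSU : SegUpperStm)
    (hSL : SegLowerStm) (hT : TwoStm) (hE : EmptyStm) : Target := by
  intro B hB j
  rcases cases15 B hB with h | h | h | h | h | h | h | h | h | h | h | h | h | h | h
  · rw [hE B h.1 h.2 (j + 1)]; simp [Answer, h.1, h.2]
  · obtain ⟨h1, h2, h3⟩ := h
    rw [hI B h1 h2 h3 j]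
    simp [Answer, h1, h2, h3]
  · subst h
    rw [reg_eq hU hL cL.2.1 cL.2.2.2 j]; simp [Answer]
  · subst h
    rw [reg_eq hU hL cE.1 cE.2 j]; simp [Answer]
  · subst h
    rw [reg_eq hU hL cF.1 cF.2 j]; simp [Answer]
  · obtain ⟨h1, h2, h3⟩ := h
    have e : B = (B.image P3.c).image P3.c := by
      rw [Finset.image_image]
      have : P3.c ∘ P3.c = id := by funext p; cases p <;> rfl
      rw [this, Finset.image_id]
    have m1 : P3.p321 ∈ B.image P3.c := Finset.mem_image.mpr ⟨.p123, h1, rfl⟩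
    have m2 : P3.p123 ∉ B.image P3.c := by
      intro hh
      obtain ⟨p, hp, hpe⟩ := Finset.mem_image.mp hh
      have : p = .p321 := by
        cases p <;> first | rfl | exact absurd hpe (by decide)
      exact h2 (this ▸ hp)
    have m3 : P3.p132 ∈ B.image P3.c ∨ P3.p213 ∈ B.image P3.c := by
      rcases h3 with h3 | h3
      · exact Or.inr (Finset.mem_image.mpr ⟨.p231, h3, rfl⟩)
      · exact Or.inl (Finset.mem_image.mpr ⟨.p312, h3, rfl⟩)
    have r : Region B (j + 1) = {eDec (j + 1)} := by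
      rw [e, hc.1, hI _ m1 m2 m3 j, hc.2]
    rw [r]
    simp [Answer, h1, h2, h3]
  · have e : B = Finset.image P3.c {.p321, .p231, .p312} := by rw [h]; decide
    have r : Region B (j + 1) = cplSet (Reg .L true j) := by
      rw [e, hc.1, reg_eq hU hL cL.2.1 cL.2.2.2 j]
    rw [r, h]; simp [Answer]
  · have e : B = Finset.image P3.c {.p321, .p312} := by rw [h]; decide
    have r : Region B (j + 1) = cplSet (Reg .E false j) := by
      rw [e, hc.1, reg_eq hU hL cE.1 cE.2 j]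
    rw [r, h]; simp [Answer]
  · have e : B = Finset.image P3.c {.p321, .p231} := by rw [h]; decide
    have r : Region B (j + 1) = cplSet (Reg .F false j) := by
      rw [e, hc.1, reg_eq hU hL cF.1 cF.2 j]
    rw [r, h]; simp [Answer]
  · obtain ⟨h1, h2, h3, h4, h5, h6⟩ := h
    rw [hT B h1 h2 h3 h4 h5 h6 j]
    simp [Answer, h1, h2, h3, h4, h5, h6]
  · obtain ⟨h1, h2, h3, h4⟩ := h
    have r : Region B (j + 1) = segment ℝ (eInc (j + 1)) (eDec (j + 1)) :=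
      Set.Subset.antisymm (hSU B h4 j) (hSL B h1 h2 h3 j)
    rw [r]
    have h5 : ¬ (P3.p132 ∈ B ∧ P3.p213 ∈ B ∧ P3.p231 ∈ B ∧ P3.p312 ∈ B) := by tauto
    simp only [Answer, h1, h2, h5, h4, false_and, if_false, if_true]
  · subst h
    rw [reg_eq hU hL cL.1 cL.2.2.1 j]; simp [Answer]
  · have e : B = Finset.image P3.c {.p231, .p312} := by rw [h]; decide
    have r : Region B (j + 1) = cplSet (Reg .L false j) := by
      rw [e, hc.1, reg_eq hU hL cL.1 cL.2.2.1 j]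
    rw [r, h]; simp [Answer]
  · subst h
    rw [reg_eq hU hL cXY.1 cXY.2.1 j]; simp [Answer]
  · subst h
    rw [reg_eq hU hL cXY.2.2.1 cXY.2.2.2 j]; simp [Answer]

end FeasR
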