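import Mathlib

/-!
# MP_9c7f60_co: feasible regions for consecutive patterns, classes avoiding several patterns of
size three

Definitions for the statement.
-/

namespace FeasR

open Filter Topology

/-- The six patterns of size three. -/
inductive P3
  | p123 | p132 | p213 | p231 | p312 | p321
  deriving DecidableEq

/-- `x, y, z` (the values at three increasing positions) form the pattern. -/
def P3.Rel {α : Type*} [LT α] : P3 → α → α → α → Prop
  | .p123, x, y, z => x < y ∧ y < z
  | .p132, x, y, z => x < z ∧ z < y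
  | .p213, x, y, z => y < x ∧ x < z
  | .p231, x, y, z => z < x ∧ x < y
  | .p312, x, y, z => y < z ∧ z < x
  | .p321, x, y, z => z < y ∧ y < x

/-- `σ` avoids every pattern in `B`. -/
def Avoids (B : Finset P3) {n : ℕ} (σ : Equiv.Perm (Fin n)) : Prop :=
  ∀ p ∈ B, ∀ i j l : Fin n, i < j → j < l → ¬ p.Rel (σ i) (σ j) (σ l)

/-- `π` occurs in `σ` consecutively at the positions `i, i + 1, …, i + k - 1`. -/
def OccAt {k n : ℕ} (π : Equiv.Perm (Fin k)) (σ : Equiv.Perm (Fin n)) (i : ℕ) : Prop :=
  ∃ h : i + k ≤ n, ∀ a b : Fin k,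
    (π a < π b ↔ σ ⟨i + a, by omega⟩ < σ ⟨i + b, by omega⟩)

open Classical in
/-- The number of consecutive occurrences of `π` in `σ`. -/
noncomputable def cocc {k n : ℕ} (π : Equiv.Perm (Fin k)) (σ : Equiv.Perm (Fin n)) : ℕ :=
  ((Finset.range (n + 1)).filter (fun i => OccAt π σ i)).card

/-- The feasible region of the class `Av(B)` for consecutive patterns of size `k`. -/
def Region (B : Finset P3) (k : ℕ) : Set (Equiv.Perm (Fin k) → ℝ) :=
  {v | ∃ (N : ℕ → ℕ) (σ : ∀ m, Equiv.Perm (Fin (N m))), (∀ m, Avoids B (σ m)) ∧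
    Tendsto N atTop atTop ∧
    ∀ π, Tendsto (fun m => (cocc π (σ m) : ℝ) / (N m : ℝ)) atTop (𝓝 (v π))}

/-! ## The answer -/

/-- Five ways to code permutations by binary words. `T.R w a b` (for `a < b`) says that the
pair of positions `a < b` is an inversion of the permutation coded by `w`. -/
inductive Ty
  | L | X | Y | E | F

def Ty.R : Ty → (ℕ → Bool) → ℕ → ℕ → Prop
  | .L, w, a, b => ∀ t, a ≤ t → t < b → w t = true
  | .X, w, _, b => w (b - 1) = true
  | .Y, w, a, _ => w a = true
  | .E, w, a, b => w b = true ∧ ∀ t, a ≤ t → t < b → w t = false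
  | .F, w, a, b => w a = true ∧ ∀ t, a < t → t ≤ b → w t = false

/-- `π` is the permutation coded by `w`. -/
def Code (T : Ty) {k : ℕ} (π : Equiv.Perm (Fin k)) (w : ℕ → Bool) : Prop :=
  ∀ a b : Fin k, a < b → (π b < π a ↔ T.R w a b)

/-- Extension of a finite word by `false`. -/
def ext {k : ℕ} (u : Fin k → Bool) (t : ℕ) : Bool := if h : t < k then u ⟨t, h⟩ else false

/-- The polytope of shift-invariant probability vectors on the binary words of length `j + 1`;
if `g = true`, the words containing two consecutive `true` have probability `0`. -/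
def Bal (g : Bool) (j : ℕ) : Set ((Fin (j + 1) → Bool) → ℝ) :=
  {μ | (∀ u, 0 ≤ μ u) ∧ ∑ u, μ u = 1 ∧
    (∀ s : Fin j → Bool, ∑ u with Fin.init (α := fun _ => Bool) u = s, μ u =
      ∑ u with Fin.tail (α := fun _ => Bool) u = s, μ u) ∧
    (g = true → ∀ u, (∃ t : Fin j, u t.castSucc = true ∧ u t.succ = true) → μ u = 0)}

open Classical in
/-- The image of the polytope `Bal g j` under the map that adds up the probabilities of the words
coding the same permutation. -/
def Reg (T : Ty) (g : Bool) (j : ℕ) : Set (Equiv.Perm (Fin (j + 1)) → ℝ) :=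
  {v | ∃ μ ∈ Bal g j, ∀ π, v π = ∑ u with Code T π (ext u), μ u}

/-- The complement of a permutation: `a ↦ k - 1 - π a`. -/
def cpl {k : ℕ} (π : Equiv.Perm (Fin k)) : Equiv.Perm (Fin k) := π.trans Fin.revPerm

/-- The complement of a region. -/
def cplSet {k : ℕ} (S : Set (Equiv.Perm (Fin k) → ℝ)) : Set (Equiv.Perm (Fin k) → ℝ) :=
  {v | (fun π => v (cpl π)) ∈ S}

/-- The unit vector of the increasing permutation. -/
noncomputable def eInc (k : ℕ) : Equiv.Perm (Fin k) → ℝ := Pi.single 1 1

/-- The unit vector of the decreasing permutation. -/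
noncomputable def eDec (k : ℕ) : Equiv.Perm (Fin k) → ℝ := Pi.single Fin.revPerm 1

open P3 in
/-- The explicit description of the feasible region. -/
noncomputable def Answer (B : Finset P3) (j : ℕ) : Set (Equiv.Perm (Fin (j + 1)) → ℝ) :=
  if p123 ∈ B ∧ p321 ∈ B then ∅
  else if p321 ∈ B then
    if p132 ∈ B ∨ p213 ∈ B then {eInc (j + 1)}
    else if p231 ∈ B ∧ p312 ∈ B then Reg .L true j
    else if p312 ∈ B then Reg .E false j
    else Reg .F false j
  else if p123 ∈ B then
    if p231 ∈ B ∨ p312 ∈ B then {eDec (j + 1)}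
    else if p132 ∈ B ∧ p213 ∈ B then cplSet (Reg .L true j)
    else if p132 ∈ B then cplSet (Reg .E false j)
    else cplSet (Reg .F false j)
  else if p132 ∈ B ∧ p213 ∈ B ∧ p231 ∈ B ∧ p312 ∈ B then {eInc (j + 1), eDec (j + 1)}
  else if (p132 ∈ B ∧ p231 ∈ B) ∨ (p213 ∈ B ∧ p312 ∈ B) then
    segment ℝ (eInc (j + 1)) (eDec (j + 1))
  else if p231 ∈ B ∧ p312 ∈ B then Reg .L false j
  else if p132 ∈ B ∧ p213 ∈ B then cplSet (Reg .L false j)
  else if p132 ∈ B ∧ p312 ∈ B then Reg .X false j
  else Reg .Y false j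

end FeasR
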