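import Mathlib
import Pool.Agent.R666.FR.Piece14

/-!
# MP_9c7f60_co, FR-15: the lower bound for the segments
-/

namespace FeasR.P15

open Filter Topology FeasR.P14

/-- a family of threshold permutations gives the whole segment -/
theorem seg_of_thr (B : Finset P3) (β : Bool)
    (hB : ∀ n c, c ≤ n → ∃ σ : Equiv.Perm (Fin n), Avoids B σ ∧ Thr σ c β) (j : ℕ) :
    segment ℝ (eInc (j + 1)) (eDec (j + 1)) ⊆ Region B (j + 1) := by
  rintro v ⟨a, b, ha, hb, hab, rfl⟩
  -- the fraction of the first part
  obtain ⟨s, hs⟩ : ∃ s : ℝ, s = if β then a else b := ⟨_, rfl⟩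
  have hs0 : 0 ≤ s := by rw [hs]; split_ifs <;> assumption
  have hs1 : s ≤ 1 := by rw [hs]; split_ifs <;> linarith
  have hc : ∀ n : ℕ, ⌊s * n⌋₊ ≤ n := by
    intro n
    have h1 : s * n ≤ n := by
      have : (0 : ℝ) ≤ n := Nat.cast_nonneg n
      nlinarith
    exact Nat.floor_le_of_le h1
  choose σ hav hthr using fun n => hB n ⌊s * n⌋₊ (hc n)
  refine ⟨fun n => n, σ, hav, tendsto_id, ?_⟩
  have hNR : Tendsto (fun m : ℕ => (m : ℝ)) atTop atTop := tendsto_natCast_atTop_atTop
  have hpos : ∀ᶠ m : ℕ in atTop, (0 : ℝ) < m := hNR.eventually_gt_atTop 0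
  rcases Nat.eq_zero_or_pos j with hj | hj
  · subst hj
    intro π
    have hval : (a • eInc (0 + 1) + b • eDec (0 + 1)) π = 1 := by
      have h1 : π = 1 := by
        apply Equiv.ext
        intro x
        apply Fin.ext
        have := (π x).2
        have := ((1 : Equiv.Perm (Fin (0 + 1))) x).2
        omega
      have h2 : (Fin.revPerm : Equiv.Perm (Fin (0 + 1))) = 1 := by
        apply Equiv.ext
        intro x
        apply Fin.ext
        have := (Fin.revPerm x).2
        have := ((1 : Equiv.Perm (Fin (0 + 1))) x).2
        omega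
      simp only [eInc, eDec, Pi.add_apply, Pi.smul_apply, smul_eq_mul, h1, h2, Pi.single_eq_same]
      linarith
    rw [hval]
    apply tendsto_const_nhds.congr'
    filter_upwards [hpos] with m hm
    rw [cocc_one, div_self hm.ne']
  · have hcnt := fun n : ℕ => counts (j := j) (hthr n) hj (hc n)
    have hinv : Tendsto (fun m : ℕ => (j : ℝ) / (m : ℝ)) atTop (𝓝 0) :=
      tendsto_const_nhds.div_atTop hNR
    have hfl : Tendsto (fun n : ℕ => (⌊s * n⌋₊ : ℝ) / (n : ℝ)) atTop (𝓝 s) :=
      (tendsto_nat_floor_mul_div_atTop hs0).comp hNR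
    have hA : Tendsto (fun n : ℕ => (cocc (pA β j) (σ n) : ℝ) / (n : ℝ)) atTop (𝓝 s) := by
      have hlow : Tendsto (fun n : ℕ => (⌊s * n⌋₊ : ℝ) / (n : ℝ) - (j : ℝ) / (n : ℝ)) atTop (𝓝 s) := by
        simpa using hfl.sub hinv
      apply tendsto_of_tendsto_of_tendsto_of_le_of_le' hlow hfl
      · filter_upwards [hpos] with n hn
        rw [← sub_div]
        apply div_le_div_of_nonneg_right _ hn.le
        have := (hcnt n).1.1
        rw [sub_le_iff_le_add]
        exact_mod_cast this
      · filter_upwards [hpos] with n hn
        apply div_le_div_of_nonneg_right _ hn.le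
        exact_mod_cast (hcnt n).1.2
    have hBl : Tendsto (fun n : ℕ => (cocc (pB β j) (σ n) : ℝ) / (n : ℝ)) atTop (𝓝 (1 - s)) := by
      have hup : Tendsto (fun n : ℕ => 1 - (⌊s * n⌋₊ : ℝ) / (n : ℝ)) atTop (𝓝 (1 - s)) :=
        tendsto_const_nhds.sub hfl
      have hlow : Tendsto (fun n : ℕ => 1 - (⌊s * n⌋₊ : ℝ) / (n : ℝ) - (j : ℝ) / (n : ℝ)) atTop
          (𝓝 (1 - s)) := by
        simpa using hup.sub hinv
      apply tendsto_of_tendsto_of_tendsto_of_le_of_le' hlow hup
      · filter_upwards [hpos] with n hn
        have h1 : 1 - (⌊s * n⌋₊ : ℝ) / (n : ℝ) - (j : ℝ) / (n : ℝ)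
            = ((n : ℝ) - ⌊s * n⌋₊ - j) / n := by
          field_simp
        rw [h1]
        apply div_le_div_of_nonneg_right _ hn.le
        have h2 := (hcnt n).2.1.1
        have h3 : (n : ℝ) ≤ ⌊s * n⌋₊ + cocc (pB β j) (σ n) + j := by exact_mod_cast h2
        linarith
      · filter_upwards [hpos] with n hn
        have h1 : 1 - (⌊s * n⌋₊ : ℝ) / (n : ℝ) = ((n : ℝ) - ⌊s * n⌋₊) / n := by
          field_simp
        rw [h1]
        apply div_le_div_of_nonneg_right _ hn.le
        have h2 := (hcnt n).2.1.2
        have h3 : (cocc (pB β j) (σ n) : ℝ) + ⌊s * n⌋₊ ≤ n := by exact_mod_cast h2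
        linarith
    have hO : ∀ π : Equiv.Perm (Fin (j + 1)), π ≠ pA β j → π ≠ pB β j →
        Tendsto (fun n : ℕ => (cocc π (σ n) : ℝ) / (n : ℝ)) atTop (𝓝 0) := by
      intro π h1 h2
      apply tendsto_of_tendsto_of_tendsto_of_le_of_le' tendsto_const_nhds hinv
      · exact Eventually.of_forall (fun m => by positivity)
      · filter_upwards [hpos] with n hn
        apply div_le_div_of_nonneg_right _ hn.le
        exact_mod_cast (hcnt n).2.2 π h1 h2
    intro π
    have hval : (a • eInc (j + 1) + b • eDec (j + 1)) π
        = if π = 1 then a else if π = Fin.revPerm then b else 0 := by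
      simp only [eInc, eDec, Pi.add_apply, Pi.smul_apply, smul_eq_mul, Pi.single_apply]
      by_cases h1 : π = 1
      · subst h1
        rw [if_pos rfl, if_neg (one_ne_rev hj), if_pos rfl]
        ring
      · by_cases h2 : π = Fin.revPerm
        · subst h2
          rw [if_neg h1, if_pos rfl, if_neg h1, if_pos rfl]
          ring
        · rw [if_neg h1, if_neg h2, if_neg h1, if_neg h2]
          ring
    rw [hval]
    cases β with
    | true =>
      simp only [pA, pB, if_true] at hA hBl hO hs
      have hb' : 1 - s = b := by rw [hs]; linarith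
      rw [hb'] at hBl
      rw [hs] at hA
      by_cases h1 : π = 1
      · rw [if_pos h1, h1]
        exact hA
      · rw [if_neg h1]
        by_cases h2 : π = Fin.revPerm
        · rw [if_pos h2, h2]
          exact hBl
        · rw [if_neg h2]
          exact hO π h1 h2
    | false =>
      simp only [pA, pB, Bool.false_eq_true, if_false] at hA hBl hO hs
      have ha' : 1 - s = a := by rw [hs]; linarith
      rw [ha'] at hBl
      rw [hs] at hA
      by_cases h1 : π = 1
      · rw [if_pos h1, h1]
        exact hBl
      · rw [if_neg h1]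
        by_cases h2 : π = Fin.revPerm
        · rw [if_pos h2, h2]
          exact hA
        · rw [if_neg h2]
          exact hO π h2 h1

theorem main : StdStm → SegLowerStm := by
  intro hStd B h123 h321 hor j
  rcases hor with h | h | h | h
  · -- 132 ∉ B : I ⊕ D
    apply seg_of_thr B true
    intro n c _
    obtain ⟨σ, hσ⟩ := hStd n (fun t => if (t : ℕ) < c then (t : ℤ) else 3 * n - t) (by
      intro x y hxy
      apply Fin.ext
      have := x.2
      have := y.2
      simp only at hxy
      split_ifs at hxy <;> omega)
    refine ⟨σ, ?_, ?_⟩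
    · intro p hp x y z hxy hyz
      have hx := x.2
      have hy := y.2
      have hz := z.2
      rw [Fin.lt_def] at hxy hyz
      cases p <;> first | exact absurd hp h123 | exact absurd hp h321 | exact absurd hp h | skip
      all_goals
        simp only [P3.Rel, hσ]
        split_ifs <;> omega
    · intro s hs
      rw [hσ]
      simp only
      split_ifs <;> simp <;> omega
  · -- 213 ∉ B : D ⊕ I
    apply seg_of_thr B false
    intro n c _
    obtain ⟨σ, hσ⟩ := hStd n (fun t => if (t : ℕ) ≤ c then -(t : ℤ) else t) (by
      intro x y hxy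
      apply Fin.ext
      have := x.2
      have := y.2
      simp only at hxy
      split_ifs at hxy <;> omega)
    refine ⟨σ, ?_, ?_⟩
    · intro p hp x y z hxy hyz
      have hx := x.2
      have hy := y.2
      have hz := z.2
      rw [Fin.lt_def] at hxy hyz
      cases p <;> first | exact absurd hp h123 | exact absurd hp h321 | exact absurd hp h | skip
      all_goals
        simp only [P3.Rel, hσ]
        split_ifs <;> omega
    · intro s hs
      rw [hσ]
      simp only
      split_ifs <;> simp <;> omega
  · -- 231 ∉ B : I ⊖ D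
    apply seg_of_thr B true
    intro n c _
    obtain ⟨σ, hσ⟩ := hStd n (fun t => if (t : ℕ) ≤ c then 2 * n + (t : ℤ) else -t) (by
      intro x y hxy
      apply Fin.ext
      have := x.2
      have := y.2
      simp only at hxy
      split_ifs at hxy <;> omega)
    refine ⟨σ, ?_, ?_⟩
    · intro p hp x y z hxy hyz
      have hx := x.2
      have hy := y.2
      have hz := z.2
      rw [Fin.lt_def] at hxy hyz
      cases p <;> first | exact absurd hp h123 | exact absurd hp h321 | exact absurd hp h | skip
      all_goals
        simp only [P3.Rel, hσ]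
        split_ifs <;> omega
    · intro s hs
      rw [hσ]
      simp only
      split_ifs <;> simp <;> omega
  · -- 312 ∉ B : D ⊖ I
    apply seg_of_thr B false
    intro n c _
    obtain ⟨σ, hσ⟩ := hStd n (fun t => if (t : ℕ) < c then 2 * n - (t : ℤ) else t) (by
      intro x y hxy
      apply Fin.ext
      have := x.2
      have := y.2
      simp only at hxy
      split_ifs at hxy <;> omega)
    refine ⟨σ, ?_, ?_⟩
    · intro p hp x y z hxy hyz
      have hx := x.2
      have hy := y.2
      have hz := z.2
      rw [Fin.lt_def] at hxy hyz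
      cases p <;> first | exact absurd hp h123 | exact absurd hp h321 | exact absurd hp h | skip
      all_goals
        simp only [P3.Rel, hσ]
        split_ifs <;> omega
    · intro s hs
      rw [hσ]
      simp only
      split_ifs <;> simp <;> omega

end FeasR.P15
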